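import Mathlib

/-!
Circle method for sums of unit fractions (MP_54bae5_nt).
-/

namespace Pool.Agent.H71.UF

open Finset

/-- the sum of the reciprocals -/
noncomputable def R (B : Finset ℕ) : ℝ := ∑ n ∈ B, (1 / (n : ℝ))

theorem R_nonneg (B : Finset ℕ) : 0 ≤ R B :=
  sum_nonneg fun _ _ => by positivity

theorem R_mono {B B' : Finset ℕ} (h : B ⊆ B') : R B ≤ R B' :=
  sum_le_sum_of_subset_of_nonneg h fun _ _ _ => by positivity

/-- product formula for the sum over all subsets -/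
theorem sum_cos_powerset (B : Finset ℕ) (θ : ℕ → ℝ) : ∀ φ : ℝ,
    ∑ S ∈ B.powerset, Real.cos (φ + ∑ n ∈ S, θ n) =
      2 ^ B.card * (∏ n ∈ B, Real.cos (θ n / 2)) * Real.cos (φ + (∑ n ∈ B, θ n) / 2) := by
  classical
  induction B using Finset.induction_on with
  | empty => intro φ; simp
  | insert a B ha ih =>
    intro φ
    rw [sum_powerset_insert ha, ih φ]
    have h1 : ∑ S ∈ B.powerset, Real.cos (φ + ∑ n ∈ insert a S, θ n) =
        ∑ S ∈ B.powerset, Real.cos ((φ + θ a) + ∑ n ∈ S, θ n) := by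
      refine sum_congr rfl fun S hS => ?_
      have : a ∉ S := fun h => ha (mem_powerset.1 hS h)
      rw [sum_insert this, add_assoc]
    rw [h1, ih (φ + θ a), prod_insert ha, sum_insert ha, card_insert_of_notMem ha]
    have h2 : Real.cos (φ + (∑ n ∈ B, θ n) / 2) + Real.cos (φ + θ a + (∑ n ∈ B, θ n) / 2) =
        2 * Real.cos (θ a / 2) * Real.cos (φ + (θ a + ∑ n ∈ B, θ n) / 2) := by
      rw [Real.cos_add_cos]
      have e1 : (φ + (∑ n ∈ B, θ n) / 2 + (φ + θ a + (∑ n ∈ B, θ n) / 2)) / 2 =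
          φ + (θ a + ∑ n ∈ B, θ n) / 2 := by ring
      have e2 : (φ + (∑ n ∈ B, θ n) / 2 - (φ + θ a + (∑ n ∈ B, θ n) / 2)) / 2 = -(θ a / 2) := by
        ring
      rw [e1, e2, Real.cos_neg]; ring
    rw [pow_succ]
    linear_combination (2 ^ B.card * ∏ n ∈ B, Real.cos (θ n / 2)) * h2

/-- orthogonality -/
theorem sum_cos_range (Q m : ℕ) (hQ : 0 < Q) :
    ∑ h ∈ range Q, Real.cos (2 * Real.pi * h * (m / Q)) = if Q ∣ m then (Q : ℝ) else 0 := by
  have hQ' : (Q : ℝ) ≠ 0 := by positivity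
  split_ifs with hd
  · obtain ⟨j, rfl⟩ := hd
    have : ∀ h ∈ range Q, Real.cos (2 * Real.pi * h * (((Q * j : ℕ) : ℝ) / Q)) = 1 := by
      intro h _
      have e : 2 * Real.pi * h * (((Q * j : ℕ) : ℝ) / Q) = ((h * j : ℕ) : ℝ) * (2 * Real.pi) := by
        push_cast; field_simp
      rw [e, Real.cos_nat_mul_two_pi]
    rw [sum_congr rfl this]; simp
  · have hs : Real.sin (Real.pi * (m / Q)) ≠ 0 := by
      intro h0
      rw [Real.sin_eq_zero_iff] at h0
      obtain ⟨n, hn⟩ := h0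
      have h1 : (n : ℝ) = m / Q := by
        have := Real.pi_ne_zero
        field_simp at hn ⊢
        nlinarith [hn, Real.pi_pos]
      have h2 : (n : ℝ) * Q = m := by rw [h1]; field_simp
      have h3 : (n : ℤ) * (Q : ℤ) = (m : ℤ) := by exact_mod_cast h2
      apply hd
      have : (Q : ℤ) ∣ (m : ℤ) := ⟨n, by rw [← h3]; ring⟩
      exact_mod_cast this
    have key : ∀ H : ℕ, 2 * Real.sin (Real.pi * (m / Q)) *
        ∑ h ∈ range H, Real.cos (2 * Real.pi * h * (m / Q)) =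
        Real.sin (Real.pi * (m / Q) * (2 * H - 1)) + Real.sin (Real.pi * (m / Q)) := by
      intro H
      induction H with
      | zero =>
        simp only [range_zero, sum_empty, mul_zero, Nat.cast_zero, mul_zero, zero_sub, mul_neg,
          mul_one, Real.sin_neg, neg_add_cancel]
      | succ H ih =>
        rw [sum_range_succ, mul_add, ih]
        have e := Real.sin_sub_sin (Real.pi * (m / Q) * (2 * (H + 1) - 1))
          (Real.pi * (m / Q) * (2 * H - 1))
        have e1 : (Real.pi * (m / Q) * (2 * ((H : ℝ) + 1) - 1) -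
          Real.pi * (m / Q) * (2 * H - 1)) / 2 = Real.pi * (m / Q) := by ring
        have e2 : (Real.pi * (m / Q) * (2 * ((H : ℝ) + 1) - 1) +
          Real.pi * (m / Q) * (2 * H - 1)) / 2 = 2 * Real.pi * H * (m / Q) := by ring
        rw [e1, e2] at e
        push_cast
        linarith
    have h1 := key Q
    have e3 : Real.pi * (m / Q) * (2 * Q - 1) = ((m : ℕ) : ℝ) * (2 * Real.pi) -
        Real.pi * (m / Q) := by field_simp
    rw [e3, Real.sin_nat_mul_two_pi_sub, neg_add_cancel] at h1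
    rcases mul_eq_zero.1 h1 with h | h
    · exact absurd ((mul_eq_zero.1 h).resolve_left two_ne_zero) hs
    · exact h

/-- `|cos (π h / n)|` is small if `n` has no multiple within distance `ℓ` of `h` -/
theorem abs_cos_le {h n ℓ N : ℕ} (hn : 0 < n) (hN : n ≤ N) (hh : ℓ < h)
    (hno : ∀ x ∈ Icc (h - ℓ) (h + ℓ), ¬ n ∣ x) :
    |Real.cos (Real.pi * h / n)| ≤ Real.exp (-(2 * (ℓ : ℝ) ^ 2 / (N : ℝ) ^ 2)) := by
  set j := h / n with hj
  set ρ := h % n with hρ
  have hdiv : n * j + ρ = h := Nat.div_add_mod h n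
  have hρn : ρ < n := Nat.mod_lt _ hn
  have h1 : ℓ < ρ := by
    by_contra hc
    push Not at hc
    refine hno (n * j) (mem_Icc.2 ⟨by omega, by omega⟩) (dvd_mul_right _ _)
  have h2 : ℓ < n - ρ := by
    by_contra hc
    push Not at hc
    refine hno (n * (j + 1)) (mem_Icc.2 ⟨?_, ?_⟩) (dvd_mul_right _ _)
    · rw [mul_add, mul_one]; omega
    · rw [mul_add, mul_one]; omega
  have hn' : (0 : ℝ) < n := by positivity
  have hN' : (0 : ℝ) < N := lt_of_lt_of_le hn' (by exact_mod_cast hN)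
  have e1 : Real.pi * h / n = Real.pi * ρ / n + (j : ℕ) * Real.pi := by
    have : (h : ℝ) = n * j + ρ := by exact_mod_cast hdiv.symm
    rw [this]; field_simp; ring
  have habs : |Real.cos (Real.pi * h / n)| = |Real.cos (Real.pi * ρ / n)| := by
    rw [e1, Real.cos_add_nat_mul_pi, abs_mul, abs_pow, abs_neg, abs_one, one_pow, one_mul]
  rw [habs]
  have hpi := Real.pi_pos
  have hρ1 : (ρ : ℝ) ≤ n := by exact_mod_cast hρn.le
  have hl1 : (ℓ : ℝ) ≤ ρ := by exact_mod_cast h1.le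
  have hl2 : (ℓ : ℝ) ≤ n - ρ := by
    have : (ℓ : ℝ) ≤ ((n - ρ : ℕ) : ℝ) := by exact_mod_cast h2.le
    rwa [Nat.cast_sub hρn.le] at this
  have hl0 : (0 : ℝ) ≤ ℓ := by positivity
  have hnN : (n : ℝ) ≤ N := by exact_mod_cast hN
  have hq : (ℓ : ℝ) ^ 2 / (N : ℝ) ^ 2 ≤ (ℓ : ℝ) ^ 2 / (n : ℝ) ^ 2 := by
    apply div_le_div_of_nonneg_left (by positivity) (by positivity)
    exact pow_le_pow_left₀ hn'.le hnN 2
  have hexp : 1 - 2 * ((ℓ : ℝ) ^ 2 / (N : ℝ) ^ 2) ≤
      Real.exp (-(2 * (ℓ : ℝ) ^ 2 / (N : ℝ) ^ 2)) := by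
    have := Real.add_one_le_exp (-(2 * (ℓ : ℝ) ^ 2 / (N : ℝ) ^ 2))
    have e : 2 * ((ℓ : ℝ) ^ 2 / (N : ℝ) ^ 2) = 2 * (ℓ : ℝ) ^ 2 / (N : ℝ) ^ 2 := by ring
    linarith
  have hcos : ∀ t : ℝ, (ℓ : ℝ) ≤ t → t ≤ n → Real.cos (Real.pi * t / n) ≤
      1 - 2 * ((ℓ : ℝ) ^ 2 / (n : ℝ) ^ 2) := by
    intro t ht1 ht2
    have ht0 : 0 ≤ t := le_trans hl0 ht1
    have hx : |Real.pi * t / n| ≤ Real.pi := by
      rw [abs_of_nonneg (by positivity), div_le_iff₀ hn']
      exact mul_le_mul_of_nonneg_left ht2 hpi.le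
    have := Real.cos_le_one_sub_mul_cos_sq hx
    have e : 2 / Real.pi ^ 2 * (Real.pi * t / n) ^ 2 = 2 * (t ^ 2 / (n : ℝ) ^ 2) := by
      field_simp
    rw [e] at this
    have h3 : (ℓ : ℝ) ^ 2 / (n : ℝ) ^ 2 ≤ t ^ 2 / (n : ℝ) ^ 2 := by
      apply div_le_div_of_nonneg_right _ (by positivity)
      exact pow_le_pow_left₀ hl0 ht1 2
    linarith
  rw [abs_le]
  constructor
  · have h4 := hcos (n - ρ) hl2 (by linarith)
    have e : Real.pi * (n - ρ) / n = Real.pi - Real.pi * ρ / n := by field_simp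
    rw [e, Real.cos_pi_sub] at h4
    linarith
  · have h4 := hcos ρ hl1 hρ1
    linarith

/-- The circle method. -/
theorem circle (B : Finset ℕ) (Q ℓ T N M : ℕ) (hQ : ∀ n ∈ B, n ∣ Q) (hQ0 : 0 < Q)
    (hM0 : 0 < M) (hM : ∀ n ∈ B, M ≤ n) (hN : ∀ n ∈ B, n ≤ N) (hℓ : 2 * ℓ ≤ M)
    (hR1 : 2 - 1 / (M : ℝ) ≤ R B) (hR2 : R B < 2)
    (hmin : ∀ h, ℓ < h → h + ℓ < Q →
      T ≤ (B.filter (fun n => ∀ x ∈ Icc (h - ℓ) (h + ℓ), ¬ n ∣ x)).card)
    (hexp : (Q : ℝ) * Real.exp (-(2 * (ℓ : ℝ) ^ 2 / (N : ℝ) ^ 2 * T)) ≤ 1 / 2)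
    (hcard : 2 * Q < 2 ^ B.card) :
    ∃ S ⊆ B, ∑ n ∈ S, (1 / (n : ℚ)) = 1 := by
  classical
  have hQr : (0 : ℝ) < Q := by positivity
  have hn0 : ∀ n ∈ B, 0 < n := fun n hn => lt_of_lt_of_le hM0 (hM n hn)
  -- m S
  set m : Finset ℕ → ℕ := fun S => ∑ n ∈ S, Q / n with hm
  have hmS : ∀ S ⊆ B, (m S : ℝ) / Q = ∑ n ∈ S, (1 / (n : ℝ)) := by
    intro S hS
    rw [hm]; simp only [Nat.cast_sum]
    rw [sum_div]
    refine sum_congr rfl fun n hn => ?_
    have h0 : (n : ℝ) ≠ 0 := by have := hn0 n (hS hn); positivity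
    rw [Nat.cast_div (hQ n (hS hn)) h0]
    field_simp
  -- F h
  set F : ℕ → ℝ := fun h => ∑ S ∈ B.powerset, Real.cos (2 * Real.pi * h * ((m S : ℝ) / Q)) with hF
  have hF1 : ∀ h, F h = 2 ^ B.card * (∏ n ∈ B, Real.cos (Real.pi * h / n)) *
      Real.cos (Real.pi * h * R B) := by
    intro h
    have := sum_cos_powerset B (fun n => 2 * Real.pi * h * (1 / (n : ℝ))) 0
    rw [hF]
    simp only
    have e1 : ∑ S ∈ B.powerset, Real.cos (2 * Real.pi * h * ((m S : ℝ) / Q)) =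
        ∑ S ∈ B.powerset, Real.cos (0 + ∑ n ∈ S, 2 * Real.pi * h * (1 / (n : ℝ))) := by
      refine sum_congr rfl fun S hS => ?_
      rw [hmS S (mem_powerset.1 hS), mul_sum, zero_add]
    rw [e1, this]
    congr 1
    · congr 1
      refine prod_congr rfl fun n _ => ?_
      congr 1; ring
    · congr 1
      rw [R, ← mul_sum]; ring
  have hpi := Real.pi_pos
  -- major arcs
  have hmaj : ∀ h, h ≤ ℓ → 0 ≤ F h := by
    intro h hh
    rw [hF1]
    have hMr : (0 : ℝ) < M := by positivity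
    have hhM : 2 * (h : ℝ) ≤ M := by
      have : 2 * h ≤ M := by omega
      exact_mod_cast this
    apply mul_nonneg (mul_nonneg (by positivity) (prod_nonneg fun n hn => ?_))
    · -- cos (pi h R)
      set η := 2 - R B with hη
      have hη0 : 0 ≤ η := by rw [hη]; linarith
      have hη1 : η ≤ 1 / M := by rw [hη]; linarith
      have e : Real.pi * h * R B = (h : ℕ) * (2 * Real.pi) - Real.pi * (h * η) := by
        rw [hη]; ring
      rw [e, Real.cos_nat_mul_two_pi_sub]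
      apply Real.cos_nonneg_of_neg_pi_div_two_le_of_le
      · have : 0 ≤ Real.pi * (h * η) := by positivity
        linarith
      · have h1 : (h : ℝ) * η ≤ h * (1 / M) := mul_le_mul_of_nonneg_left hη1 (by positivity)
        have h2 : (h : ℝ) * (1 / M) ≤ 1 / 2 := by
          rw [mul_one_div, div_le_div_iff₀ hMr two_pos]; linarith
        nlinarith
    · have h1 : (M : ℝ) ≤ n := by exact_mod_cast hM n hn
      have hn' : (0 : ℝ) < n := lt_of_lt_of_le hMr h1
      apply Real.cos_nonneg_of_neg_pi_div_two_le_of_le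
      · have : 0 ≤ Real.pi * h / n := by positivity
        linarith
      · rw [div_le_iff₀ hn']
        nlinarith
  have hF0 : F 0 = 2 ^ B.card := by
    rw [hF1]; simp
  have hsym : ∀ h, h ≤ Q → F (Q - h) = F h := by
    intro h hh
    rw [hF]
    simp only
    refine sum_congr rfl fun S _ => ?_
    have e : 2 * Real.pi * ((Q - h : ℕ) : ℝ) * ((m S : ℝ) / Q) =
        ((m S : ℕ) : ℝ) * (2 * Real.pi) - 2 * Real.pi * h * ((m S : ℝ) / Q) := by
      rw [Nat.cast_sub hh]; field_simp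
    rw [e, Real.cos_nat_mul_two_pi_sub]
  -- minor arcs
  set E : ℝ := Real.exp (-(2 * (ℓ : ℝ) ^ 2 / (N : ℝ) ^ 2 * T)) with hE
  have hmin' : ∀ h, ℓ < h → h + ℓ < Q → |F h| ≤ 2 ^ B.card * E := by
    intro h h1 h2
    rw [hF1, abs_mul, abs_mul, abs_of_nonneg (by positivity : (0 : ℝ) ≤ 2 ^ B.card)]
    set G := B.filter (fun n => ∀ x ∈ Icc (h - ℓ) (h + ℓ), ¬ n ∣ x) with hG
    have hprod : |∏ n ∈ B, Real.cos (Real.pi * h / n)| ≤ E := by
      rw [abs_prod]
      calc ∏ n ∈ B, |Real.cos (Real.pi * h / n)|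
          ≤ ∏ n ∈ B, (if n ∈ G then Real.exp (-(2 * (ℓ : ℝ) ^ 2 / (N : ℝ) ^ 2)) else 1) := by
            refine prod_le_prod (fun _ _ => abs_nonneg _) fun n hn => ?_
            split_ifs with hg
            · exact abs_cos_le (hn0 n hn) (hN n hn) h1 (mem_filter.1 hg).2
            · exact Real.abs_cos_le_one _
        _ = Real.exp (-(2 * (ℓ : ℝ) ^ 2 / (N : ℝ) ^ 2)) ^ G.card := by
            rw [prod_ite, prod_const, prod_const_one, mul_one]
            congr 2
            ext n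
            simp only [mem_filter, hG]
            tauto
        _ ≤ Real.exp (-(2 * (ℓ : ℝ) ^ 2 / (N : ℝ) ^ 2)) ^ T := by
            apply pow_le_pow_of_le_one (Real.exp_nonneg _) _ (hmin h h1 h2)
            rw [Real.exp_le_one_iff]
            have : 0 ≤ 2 * (ℓ : ℝ) ^ 2 / (N : ℝ) ^ 2 := by positivity
            linarith
        _ = E := by
            rw [← Real.exp_nat_mul, hE]
            congr 1; ring
    have hc : |Real.cos (Real.pi * h * R B)| ≤ 1 := Real.abs_cos_le_one _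
    calc 2 ^ B.card * |∏ n ∈ B, Real.cos (Real.pi * h / n)| * |Real.cos (Real.pi * h * R B)|
        ≤ 2 ^ B.card * E * 1 := by
          apply mul_le_mul _ hc (abs_nonneg _) (by positivity)
          exact mul_le_mul_of_nonneg_left hprod (by positivity)
      _ = _ := mul_one _
  -- all arcs
  have hall : ∀ h ∈ range Q, (if h = 0 then (2 : ℝ) ^ B.card else 0) - 2 ^ B.card * E ≤ F h := by
    intro h hh
    have hE0 : 0 ≤ 2 ^ B.card * E := by positivity
    rcases Nat.eq_zero_or_pos h with h0 | h0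
    · subst h0; rw [if_pos rfl, hF0]; linarith
    · rw [if_neg h0.ne']
      rcases le_or_gt h ℓ with h1 | h1
      · have := hmaj h h1; linarith
      rcases lt_or_ge (h + ℓ) Q with h2 | h2
      · have := (abs_le.1 (hmin' h h1 h2)).1; linarith
      · have hQh : h < Q := mem_range.1 hh
        have h3 := hmaj (Q - h) (by omega)
        have h4 := hsym (Q - h) (by omega)
        rw [Nat.sub_sub_self hQh.le] at h4
        rw [h4]; linarith
  -- double counting
  set 𝒩 := B.powerset.filter (fun S => Q ∣ m S) with h𝒩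
  have hdc : ∑ h ∈ range Q, F h = Q * 𝒩.card := by
    rw [hF]
    simp only
    rw [sum_comm]
    calc ∑ S ∈ B.powerset, ∑ h ∈ range Q, Real.cos (2 * Real.pi * h * ((m S : ℝ) / Q))
        = ∑ S ∈ B.powerset, (if Q ∣ m S then (Q : ℝ) else 0) :=
          sum_congr rfl fun S _ => sum_cos_range Q (m S) hQ0
      _ = Q * 𝒩.card := by
          rw [← sum_filter, sum_const, nsmul_eq_mul, mul_comm]
  have hlow : (2 : ℝ) ^ B.card - Q * (2 ^ B.card * E) ≤ Q * 𝒩.card := by
    rw [← hdc]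
    calc (2 : ℝ) ^ B.card - Q * (2 ^ B.card * E)
        = ∑ h ∈ range Q, ((if h = 0 then (2 : ℝ) ^ B.card else 0) - 2 ^ B.card * E) := by
          rw [sum_sub_distrib, sum_ite_eq' (range Q) 0, if_pos (mem_range.2 hQ0), sum_const,
            card_range, nsmul_eq_mul]
      _ ≤ _ := sum_le_sum hall
  have h2 : (2 : ℝ) ^ B.card / 2 ≤ Q * 𝒩.card := by
    have h3 : Q * (2 ^ B.card * E) ≤ 2 ^ B.card * (1 / 2) := by
      have := mul_le_mul_of_nonneg_left hexp (by positivity : (0 : ℝ) ≤ 2 ^ B.card)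
      linarith
    linarith
  have h3 : (Q : ℝ) < 2 ^ B.card / 2 := by
    have : ((2 * Q : ℕ) : ℝ) < ((2 ^ B.card : ℕ) : ℝ) := by exact_mod_cast hcard
    push_cast at this; linarith
  have h4 : (1 : ℝ) < 𝒩.card := by
    by_contra hc
    push Not at hc
    have : (Q : ℝ) * 𝒩.card ≤ Q * 1 := mul_le_mul_of_nonneg_left hc hQr.le
    linarith
  have h5 : 1 < 𝒩.card := by exact_mod_cast h4
  obtain ⟨S, hS, hne⟩ := Finset.exists_mem_ne h5 ∅
  rw [h𝒩, mem_filter, mem_powerset] at hS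
  refine ⟨S, hS.1, ?_⟩
  -- m S = Q
  have hpos : 0 < m S := by
    obtain ⟨n, hn⟩ := Finset.nonempty_iff_ne_empty.2 hne
    have h6 : 0 < Q / n := Nat.div_pos (Nat.le_of_dvd hQ0 (hQ n (hS.1 hn))) (hn0 n (hS.1 hn))
    exact lt_of_lt_of_le h6 (single_le_sum (f := fun n => Q / n) (fun _ _ => Nat.zero_le _) hn)
  have hlt : m S < 2 * Q := by
    have h7 : (m S : ℝ) / Q < 2 := by
      rw [hmS S hS.1]
      exact lt_of_le_of_lt (R_mono hS.1) hR2
    rw [div_lt_iff₀ hQr] at h7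
    exact_mod_cast h7
  obtain ⟨j, hj⟩ := hS.2
  have hj1 : j = 1 := by
    have h8 : 0 < j := by
      rcases Nat.eq_zero_or_pos j with h | h
      · rw [h, mul_zero] at hj; omega
      · exact h
    have h9 : j < 2 := by
      by_contra hc
      push Not at hc
      have : Q * 2 ≤ Q * j := Nat.mul_le_mul_left _ hc
      omega
    omega
  rw [hj1, mul_one] at hj
  have hfin : ∑ n ∈ S, (1 / (n : ℝ)) = 1 := by
    rw [← hmS S hS.1, hj]
    exact div_self hQr.ne'
  have : ((∑ n ∈ S, (1 / (n : ℚ)) : ℚ) : ℝ) = 1 := by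
    push_cast; exact hfin
  exact_mod_cast this

end Pool.Agent.H71.UF
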