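import Pool.Agent.H71.UF.Key

/-!
The colouring theorem for given windows (MP_54bae5_nt).
-/

namespace Pool.Agent.H71.UF

open Finset

/-- the numerical assumptions -/
structure Par (k r y v K : ℕ) (ω : ℝ) (V : Fin k → Finset ℕ) (W : Fin 3 → Finset ℕ) : Prop where
  win : IsWin (Sum.elim V W)
  k1 : 180 ≤ k
  k2 : 4 * ((19 : ℝ) / 20) ^ k < 1 / (2 * k + 3)
  om : 0 < ω
  k3 : 3 * (r : ℝ) ≤ (5 / 4) ^ k * ω ^ 3
  vk : 2 * (2 * k + 3) ≤ v
  Vlow : ∀ i, 5 / 4 ≤ R (V i)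
  Vup : ∀ i, R (V i) ≤ 17 / 12
  Wlow : ∀ j, ω ≤ R (W j)
  Wup : ∀ j, R (W j) ≤ 1 / 2
  Vy : ∀ i, ∀ p ∈ V i, y ≤ p
  Vv : ∀ i, ∀ p ∈ V i, p ≤ v ^ 23
  Wv : ∀ j, ∀ p ∈ W j, p ≤ v ^ 23
  a_le : ∀ a ∈ PP V, a ≤ v
  b_gt : ∀ b ∈ PP W, v ^ 63 < b
  b_le : ∀ b ∈ PP W, b ≤ v ^ 66
  hK : (K : ℝ) ≤ y * ((1 / 3) * ∑ i, R (V i))
  hyK : 2 * v ^ 62 < y ^ K

theorem exists_colour_class (A : Finset ℕ) (r : ℕ) (χ : ℕ → Fin r) (hr : 0 < r) :
    ∃ c, R A / r ≤ R (A.filter (fun n => χ n = c)) := by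
  by_contra hcon
  push Not at hcon
  have : Nonempty (Fin r) := ⟨⟨0, hr⟩⟩
  have h1 : ∑ c : Fin r, R (A.filter (fun n => χ n = c)) = R A := by
    unfold R
    rw [sum_fiberwise]
  have h2 : ∑ c : Fin r, R (A.filter (fun n => χ n = c)) < ∑ _c : Fin r, R A / r :=
    sum_lt_sum_of_nonempty univ_nonempty fun c _ => hcon c
  rw [h1, sum_const, card_univ, Fintype.card_fin, nsmul_eq_mul] at h2
  have : (r : ℝ) ≠ 0 := by positivity
  rw [mul_div_cancel₀ _ this] at h2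
  exact lt_irrefl _ h2

theorem prod_QB_le {α β : Type*} [Fintype α] [DecidableEq α] [Fintype β] [DecidableEq β]
    {Z : α ⊕ β → Finset ℕ} (hZ : IsWin Z) (B : Finset ℕ) (z : ℕ)
    (hz : ∀ i, ∀ p ∈ Z i, p ≤ z) : ∏ q ∈ QB Z B, q ≤ 4 ^ z := by
  refine le_trans ?_ (primorial_le_four_pow z)
  unfold primorial
  apply prod_le_prod_of_subset_of_one_le'
  · intro q hq
    rw [QB, mem_filter] at hq
    obtain ⟨i, hi⟩ := mem_allP.1 hq.1
    rw [mem_filter, mem_range]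
    exact ⟨by have := hz i q hi; omega, hZ.prime i q hi⟩
  · intro q hq _
    rw [mem_filter] at hq
    exact hq.2.one_lt.le

theorem colour_core {k r y v K : ℕ} {ω : ℝ} {V : Fin k → Finset ℕ} {W : Fin 3 → Finset ℕ}
    (h : Par k r y v K ω V W) (χ : ℕ → Fin r) :
    ∃ (c : Fin r) (S : Finset ℕ), (∀ n ∈ S, n ∈ PP (Sum.elim V W) ∧ χ n = c) ∧
      ∑ n ∈ S, (1 / (n : ℚ)) = 1 := by
  classical
  have hr : 0 < r := Fin.pos (χ 0)
  set Z := Sum.elim V W with hZ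
  have hVwin : IsWin V := ⟨fun i p hp => h.win.prime (Sum.inl i) p hp,
    fun i j p hi hj => Sum.inl_injective (h.win.disj (Sum.inl i) (Sum.inl j) p hi hj)⟩
  have hWwin : IsWin W := ⟨fun i p hp => h.win.prime (Sum.inr i) p hp,
    fun i j p hi hj => Sum.inr_injective (h.win.disj (Sum.inr i) (Sum.inr j) p hi hj)⟩
  have hk1 : (180 : ℝ) ≤ k := by exact_mod_cast h.k1
  have hv2 : 2 ≤ v := by have := h.vk; omega
  have hvr : (2 : ℝ) ≤ v := by exact_mod_cast hv2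
  have hv0 : (0 : ℝ) < v := by linarith
  have hvk : 2 * (2 * (k : ℝ) + 3) ≤ v := by exact_mod_cast h.vk
  -- sizes
  have hsplit : ∀ n ∈ PP Z, ∃ a ∈ PP V, ∃ b ∈ PP W, a * b = n := by
    intro n hn
    obtain ⟨f, hf, hfn⟩ := mem_PP.1 hn
    rw [Fintype.prod_sum_type] at hfn
    exact ⟨_, mem_PP.2 ⟨fun i => f (Sum.inl i), fun i => hf (Sum.inl i), rfl⟩, _,
      mem_PP.2 ⟨fun i => f (Sum.inr i), fun i => hf (Sum.inr i), rfl⟩, hfn⟩
  have hapos : ∀ a ∈ PP V, 0 < a := by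
    intro a ha
    obtain ⟨f, hf, rfl⟩ := mem_PP.1 ha
    exact prod_pos fun i _ => (hVwin.prime i _ (hf i)).pos
  have hsize : ∀ n ∈ PP Z, v ^ 63 ≤ n ∧ n ≤ v ^ 67 := by
    intro n hn
    obtain ⟨a, ha, b, hb, rfl⟩ := hsplit n hn
    constructor
    · calc v ^ 63 ≤ 1 * b := by rw [one_mul]; exact (h.b_gt b hb).le
        _ ≤ a * b := Nat.mul_le_mul_right _ (hapos a ha)
    · calc a * b ≤ v * v ^ 66 := Nat.mul_le_mul (h.a_le a ha) (h.b_le b hb)
        _ = v ^ 67 := by ring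
  have hZz : ∀ i, ∀ p ∈ Z i, p ≤ v ^ 23 := by
    rintro (i | j) p hp
    · exact h.Vv i p hp
    · exact h.Wv j p hp
  -- masses
  set P := allP Z with hP
  have hRP : R P ≤ 2 * k + 3 := by
    rw [hP, R_allP h.win, Fintype.sum_sum_type]
    have e1 : ∑ i : Fin k, R (Z (Sum.inl i)) ≤ k * (17 / 12) := by
      calc _ ≤ ∑ _i : Fin k, (17 / 12 : ℝ) := sum_le_sum fun i _ => h.Vup i
        _ = _ := by simp
    have e2 : ∑ j : Fin 3, R (Z (Sum.inr j)) ≤ 3 * (1 / 2) := by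
      calc _ ≤ ∑ _j : Fin 3, (1 / 2 : ℝ) := sum_le_sum fun j _ => h.Wup j
        _ = _ := by simp
    linarith
  have hRU : (5 / 4) ^ k * ω ^ 3 ≤ R (PP Z) := by
    rw [R_PP h.win, Fintype.prod_sum_type]
    apply mul_le_mul
    · calc ((5 : ℝ) / 4) ^ k = ∏ _i : Fin k, (5 / 4 : ℝ) := by
            rw [prod_const, card_univ, Fintype.card_fin]
        _ ≤ _ := prod_le_prod (fun _ _ => by norm_num) fun i _ => h.Vlow i
    · calc ω ^ 3 = ∏ _i : Fin 3, ω := by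
            rw [prod_const, card_univ, Fintype.card_fin]
        _ ≤ _ := prod_le_prod (fun _ _ => h.om.le) fun j _ => h.Wlow j
    · have := h.om
      positivity
    · exact prod_nonneg fun i _ => R_nonneg _
  obtain ⟨c, hc⟩ := exists_colour_class (PP Z) r χ hr
  set A := (PP Z).filter (fun n => χ n = c) with hA
  have hrr : (0 : ℝ) < r := by exact_mod_cast hr
  have hRA : 3 ≤ R A := by
    refine le_trans ?_ hc
    rw [le_div_iff₀ hrr]
    exact h.k3.trans hRU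
  -- prune
  set ε : ℝ := 1 / (2 * k + 3) with hε
  have hε0 : 0 < ε := by positivity
  have hεP : ε * R P ≤ 1 := by
    calc ε * R P ≤ ε * (2 * k + 3) := mul_le_mul_of_nonneg_left hRP hε0.le
      _ = 1 := by rw [hε]; field_simp
  have hMr : (1 : ℝ) ≤ ((v ^ 63 : ℕ) : ℝ) := by
    have : 1 ≤ v ^ 63 := Nat.one_le_pow _ _ (by omega)
    exact_mod_cast this
  have hcardP : (P.card : ℝ) / ((v ^ 63 : ℕ) : ℝ) < 1 := by
    rw [div_lt_one (by linarith)]
    have h1 : P.card ≤ v ^ 23 := by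
      have : P ⊆ Icc 1 (v ^ 23) := by
        intro p hp
        rw [hP, mem_allP] at hp
        obtain ⟨i, hi⟩ := hp
        rw [mem_Icc]
        exact ⟨(h.win.prime i p hi).pos, hZz i p hi⟩
      have := card_le_card this
      simpa using this
    have h2 : v ^ 23 < v ^ 63 := Nat.pow_lt_pow_right (by omega) (by norm_num)
    exact_mod_cast lt_of_le_of_lt h1 h2
  obtain ⟨B, hBA, hB1, hB2, hBgood⟩ := prune P A ε ((v ^ 63 : ℕ) : ℝ) hε0 (by linarith)
    (fun n hn => by exact_mod_cast (hsize n (mem_filter.1 hn).1).1) (by linarith) (by linarith)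
  have hBU : B ⊆ PP Z := hBA.trans (filter_subset _ _)
  set Q := ∏ q ∈ QB Z B, q with hQ
  have hQ4 : Q ≤ 4 ^ (v ^ 23) := prod_QB_le h.win B _ hZz
  have hQ0 : 0 < Q := by
    apply prod_pos
    intro q hq
    rw [QB, mem_filter] at hq
    obtain ⟨i, hi⟩ := mem_allP.1 hq.1
    exact (h.win.prime i q hi).pos
  -- 2 Q < 2 ^ card
  have hcardB : v ^ 63 ≤ B.card := by
    have h1 : R B ≤ B.card / ((v ^ 63 : ℕ) : ℝ) := by
      calc R B ≤ ∑ n ∈ B, 1 / (((v ^ 63 : ℕ)) : ℝ) := by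
            refine sum_le_sum fun n hn => ?_
            exact one_div_le_one_div_of_le (by linarith) (by exact_mod_cast (hsize n (hBU hn)).1)
        _ = _ := by rw [sum_const, nsmul_eq_mul]; ring
    have h2 : (1 : ℝ) ≤ R B := by
      have : 1 / (((v ^ 63 : ℕ)) : ℝ) ≤ 1 := by
        rw [div_le_one (by linarith)]; exact hMr
      linarith
    have h3 := h2.trans h1
    rw [le_div_iff₀ (by linarith), one_mul] at h3
    exact_mod_cast h3
  have hpow : 2 * v ^ 23 + 2 ≤ v ^ 29 := by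
    have e : v ^ 29 = v ^ 23 * v ^ 6 := by ring
    have h1 : 2 ^ 6 ≤ v ^ 6 := Nat.pow_le_pow_left hv2 6
    have h2 : 1 ≤ v ^ 23 := Nat.one_le_pow _ _ (by omega)
    rw [e]
    nlinarith
  have hcard : 2 * Q < 2 ^ B.card := by
    have h1 : v ^ 29 ≤ v ^ 63 := Nat.pow_le_pow_right (by omega) (by norm_num)
    calc 2 * Q ≤ 2 * 4 ^ (v ^ 23) := Nat.mul_le_mul_left _ hQ4
      _ = 2 ^ (2 * v ^ 23 + 1) := by
          generalize v ^ 23 = w
          rw [pow_succ, pow_mul, mul_comm]; norm_num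
      _ < 2 ^ B.card := Nat.pow_lt_pow_right (by norm_num) (by omega)
  -- exponential
  have hexp : (Q : ℝ) * Real.exp (-(2 * ((v ^ 62 : ℕ) : ℝ) ^ 2 / ((v ^ 67 : ℕ) : ℝ) ^ 2 *
      ((v ^ 39 : ℕ) : ℝ))) ≤ 1 / 2 := by
    have e : 2 * ((v ^ 62 : ℕ) : ℝ) ^ 2 / ((v ^ 67 : ℕ) : ℝ) ^ 2 * ((v ^ 39 : ℕ) : ℝ) =
        2 * (v : ℝ) ^ 29 := by
      push_cast; field_simp
    rw [e]
    have h1 : (Q : ℝ) ≤ Real.exp (2 * (v : ℝ) ^ 23) := by
      have h2 : (Q : ℝ) ≤ (4 : ℝ) ^ (v ^ 23) := by exact_mod_cast hQ4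
      refine h2.trans ?_
      have h3 : (4 : ℝ) ≤ Real.exp 2 := by
        have := Real.exp_one_gt_d9
        have e4 : Real.exp 2 = Real.exp 1 * Real.exp 1 := by rw [← Real.exp_add]; norm_num
        rw [e4]; nlinarith
      calc (4 : ℝ) ^ (v ^ 23) ≤ (Real.exp 2) ^ (v ^ 23) := pow_le_pow_left₀ (by norm_num) h3 _
        _ = _ := by
          rw [← Real.exp_nat_mul]
          congr 1; push_cast; ring
    have h5 : 2 * (v : ℝ) ^ 23 + 2 ≤ (v : ℝ) ^ 29 := by exact_mod_cast hpow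
    have h6 : (0 : ℝ) < (v : ℝ) ^ 29 := by positivity
    calc (Q : ℝ) * Real.exp (-(2 * (v : ℝ) ^ 29))
        ≤ Real.exp (2 * (v : ℝ) ^ 23) * Real.exp (-(2 * (v : ℝ) ^ 29)) :=
          mul_le_mul_of_nonneg_right h1 (Real.exp_nonneg _)
      _ = Real.exp (2 * (v : ℝ) ^ 23 - 2 * (v : ℝ) ^ 29) := by rw [← Real.exp_add]; ring_nf
      _ ≤ Real.exp (-1) := Real.exp_le_exp.2 (by linarith)
      _ ≤ 1 / 2 := by
        rw [Real.exp_neg, one_div]
        apply inv_anti₀ (by norm_num)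
        have := Real.exp_one_gt_d9
        linarith
  -- circle
  obtain ⟨S, hSB, hS⟩ := circle B Q (v ^ 62) (v ^ 39) (v ^ 67) (v ^ 63)
    (dvd_prod_QB h.win hBU) hQ0 (Nat.pow_pos (by omega)) (fun n hn => (hsize n (hBU hn)).1)
    (fun n hn => (hsize n (hBU hn)).2)
    (by
      calc 2 * v ^ 62 ≤ v * v ^ 62 := Nat.mul_le_mul_right _ hv2
        _ = v ^ 63 := by ring)
    hB1 hB2
    (by
      intro m hm1 hm2
      refine key V W h.win B hBU ε (19 / 20) (v ^ 63) (v ^ 62) (v ^ 39) y K m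
        (Nat.pow_pos (by omega)) (fun n hn => (hsize n (hBU hn)).1) hBgood ?_ ?_ ?_
        (by norm_num) ?_ ?_ h.Vy h.hK h.hyK hm1 hm2
      · intro q hq
        obtain ⟨i, hi⟩ := mem_allP.1 hq
        have hq1 : (q : ℝ) ≤ (v : ℝ) ^ 23 := by exact_mod_cast hZz i q hi
        have hq0 : (0 : ℝ) < q := by exact_mod_cast (h.win.prime i q hi).pos
        have e : ((v ^ 39 : ℕ) : ℝ) / ((v ^ 63 : ℕ) : ℝ) = 1 / (v : ℝ) ^ 24 := by
          push_cast; field_simp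
        rw [e, hε, div_div, div_le_div_iff₀ (by positivity) (by positivity), one_mul, one_mul]
        calc (2 * (k : ℝ) + 3) * (2 * q) = (2 * (2 * k + 3)) * q := by ring
          _ ≤ v * (v : ℝ) ^ 23 := mul_le_mul hvk hq1 hq0.le hv0.le
          _ = (v : ℝ) ^ 24 := by ring
      · intro b hb
        have := h.b_gt b hb
        have e : 2 * v ^ 62 ≤ v ^ 63 := by
          calc 2 * v ^ 62 ≤ v * v ^ 62 := Nat.mul_le_mul_right _ hv2
            _ = v ^ 63 := by ring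
        omega
      · have e2 : ∑ j : Fin 3, R (W j) ≤ 3 * (1 / 2) := by
          calc _ ≤ ∑ _j : Fin 3, (1 / 2 : ℝ) := sum_le_sum fun j _ => h.Wup j
            _ = _ := by simp
        simp only [Fintype.card_fin]
        push_cast
        linarith
      · have e1 : ∑ i : Fin k, R (V i) ≤ k * (17 / 12) := by
          calc _ ≤ ∑ _i : Fin k, (17 / 12 : ℝ) := sum_le_sum fun i _ => h.Vup i
            _ = _ := by simp
        rw [Fintype.card_fin]
        linarith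
      · rw [Fintype.card_fin]
        exact h.k2)
    hexp hcard
  refine ⟨c, S, fun n hn => ?_, hS⟩
  exact mem_filter.1 (hBA (hSB hn))

end Pool.Agent.H71.UF
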