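import Pool.Agent.H71.UF.Win

/-!
Key lemma: the minor arcs (MP_54bae5_nt).
-/

namespace Pool.Agent.H71.UF

open Finset

set_option linter.unusedSectionVars false

variable {α β : Type*} [Fintype α] [DecidableEq α] [Fintype β] [DecidableEq β]

/-- a sum over an interval shorter than all elements -/
theorem sum_interval (𝒮 : Finset ℕ) (ℓ h : ℕ) (hS : ∀ b ∈ 𝒮, 2 * ℓ < b) :
    ∑ x ∈ Icc (h - ℓ) (h + ℓ), R (𝒮.filter (fun n => n ∣ x)) ≤ R 𝒮 := by
  unfold R
  have e : ∀ x ∈ Icc (h - ℓ) (h + ℓ), ∑ n ∈ 𝒮.filter (fun n => n ∣ x), 1 / (n : ℝ) =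
      ∑ n ∈ 𝒮, if n ∣ x then 1 / (n : ℝ) else 0 := fun x _ => sum_filter _ _
  rw [sum_congr rfl e, sum_comm]
  refine sum_le_sum fun n hn => ?_
  rw [← sum_filter, sum_const, nsmul_eq_mul]
  have hcard : ((Icc (h - ℓ) (h + ℓ)).filter (fun x => n ∣ x)).card ≤ 1 := by
    rw [card_le_one]
    intro x hx x' hx'
    rw [mem_filter, mem_Icc] at hx hx'
    have hb := hS n hn
    by_contra hne
    rcases lt_or_gt_of_ne hne with hlt | hlt
    · have := Nat.le_of_dvd (by omega) (Nat.dvd_sub hx'.2 hx.2)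
      omega
    · have := Nat.le_of_dvd (by omega) (Nat.dvd_sub hx.2 hx'.2)
      omega
  have : (((Icc (h - ℓ) (h + ℓ)).filter (fun x => n ∣ x)).card : ℝ) ≤ 1 := by exact_mod_cast hcard
  calc _ ≤ 1 * (1 / (n : ℝ)) := mul_le_mul_of_nonneg_right this (by positivity)
    _ = _ := one_mul _

theorem R_prod_image_le (A B : Finset ℕ) :
    R ((A ×ˢ B).image (fun p => p.1 * p.2)) ≤ R A * R B := by
  refine (R_image_le _ _).trans (le_of_eq ?_)
  rw [sum_product, R, R, sum_mul_sum]
  refine sum_congr rfl fun a _ => sum_congr rfl fun b _ => ?_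
  push_cast
  rw [one_div_mul_one_div]

/-- all primes of the windows -/
noncomputable def allP {ι : Type*} [Fintype ι] (Z : ι → Finset ℕ) : Finset ℕ := univ.biUnion Z

theorem mem_allP {ι : Type*} [Fintype ι] {Z : ι → Finset ℕ} {p : ℕ} :
    p ∈ allP Z ↔ ∃ i, p ∈ Z i := by
  simp [allP]

theorem R_allP {ι : Type*} [Fintype ι] [DecidableEq ι] {Z : ι → Finset ℕ} (h : IsWin Z) :
    R (allP Z) = ∑ i, R (Z i) := by
  unfold R allP
  rw [sum_biUnion]
  intro i _ j _ hij
  rw [Function.onFun, disjoint_left]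
  intro p hi hj
  exact hij (h.disj i j p hi hj)

/-- the primes dividing an element of `B` -/
noncomputable def QB (Z : α ⊕ β → Finset ℕ) (B : Finset ℕ) : Finset ℕ :=
  (allP Z).filter (fun q => (mult B q).Nonempty)

theorem dvd_prod_QB {Z : α ⊕ β → Finset ℕ} (hZ : IsWin Z) {B : Finset ℕ} (hB : B ⊆ PP Z) :
    ∀ n ∈ B, n ∣ ∏ q ∈ QB Z B, q := by
  intro n hn
  obtain ⟨f, hf, rfl⟩ := mem_PP.1 (hB hn)
  have hinj : Set.InjOn f (univ : Finset (α ⊕ β)) := by
    intro i _ j _ hij
    exact hZ.disj i j (f i) (hf i) (hij ▸ hf j)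
  have e : ∏ i, f i = ∏ p ∈ univ.image f, p := by
    rw [prod_image hinj]
  rw [e]
  apply prod_dvd_prod_of_subset
  intro p hp
  obtain ⟨i, _, rfl⟩ := mem_image.1 hp
  rw [QB, mem_filter]
  exact ⟨mem_allP.2 ⟨i, hf i⟩, ⟨_, mem_mult.2 ⟨hn, dvd_prod_of_mem _ (mem_univ i)⟩⟩⟩

theorem key (V : α → Finset ℕ) (W : β → Finset ℕ) (hZ : IsWin (Sum.elim V W))
    (B : Finset ℕ) (hB : B ⊆ PP (Sum.elim V W)) (ε μ : ℝ) (M ℓ T y K h : ℕ)
    (hM0 : 0 < M) (hM : ∀ n ∈ B, M ≤ n)
    (hgood : ∀ q ∈ allP (Sum.elim V W), (mult B q).Nonempty → ε / q ≤ R (mult B q))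
    (hT : ∀ q ∈ allP (Sum.elim V W), (T : ℝ) / M ≤ ε / (2 * q))
    (hℓ : ∀ b ∈ PP W, 2 * ℓ < b) (hW : ∑ j, R (W j) + 1 ≤ Fintype.card β)
    (hμ0 : 0 < μ) (hμ : (2 / 3) * (∑ i, R (V i)) + 1 ≤ μ * Fintype.card α)
    (hsmall : 4 * μ ^ Fintype.card α < ε)
    (hy : ∀ i, ∀ p ∈ V i, y ≤ p) (hK : (K : ℝ) ≤ y * ((1 / 3) * ∑ i, R (V i)))
    (hyK : 2 * ℓ < y ^ K) (h1 : ℓ < h) (h2 : h + ℓ < ∏ q ∈ QB (Sum.elim V W) B, q) :
    T ≤ (B.filter (fun n => ∀ x ∈ Icc (h - ℓ) (h + ℓ), ¬ n ∣ x)).card := by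
  classical
  by_contra hcon
  push Not at hcon
  set Z := Sum.elim V W with hZdef
  set I := Icc (h - ℓ) (h + ℓ) with hI
  set bad := B.filter (fun n => ∀ x ∈ I, ¬ n ∣ x) with hbad
  have hVwin : IsWin V := ⟨fun i p hp => hZ.prime (Sum.inl i) p hp,
    fun i j p hi hj => Sum.inl_injective (hZ.disj (Sum.inl i) (Sum.inl j) p hi hj)⟩
  have hWwin : IsWin W := ⟨fun i p hp => hZ.prime (Sum.inr i) p hp,
    fun i j p hi hj => Sum.inr_injective (hZ.disj (Sum.inr i) (Sum.inr j) p hi hj)⟩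
  set S1 := ∑ i, R (V i) with hS1
  have hMr : (0 : ℝ) < M := by exact_mod_cast hM0
  have hRW1 : R (PP W) ≤ 1 := by
    refine (R_PP_le W).trans ?_
    have := prod_le_pow (c := fun j => R (W j)) one_pos (fun j => R_nonneg _)
      (by rw [one_mul]; linarith)
    simpa using this
  have hRbad : R bad ≤ T / M := by
    calc R bad ≤ ∑ n ∈ bad, 1 / (M : ℝ) := by
          refine sum_le_sum fun n hn => ?_
          exact one_div_le_one_div_of_le hMr (by exact_mod_cast hM n (mem_filter.1 hn).1)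
      _ = bad.card / M := by rw [sum_const, nsmul_eq_mul]; ring
      _ ≤ T / M := by
          apply div_le_div_of_nonneg_right _ hMr.le
          exact_mod_cast hcon.le
  -- step A
  have hA : ∀ q ∈ QB Z B, ∃ x ∈ I, q ∣ x ∧ (2 / 3) * S1 ≤ ∑ i, R (cut V x i) := by
    intro q hq
    rw [QB, mem_filter] at hq
    obtain ⟨hqP, hne⟩ := hq
    by_contra hno
    push Not at hno
    obtain ⟨i0, hi0⟩ := mem_allP.1 hqP
    have hqp : q.Prime := hZ.prime i0 q hi0
    have hq0 : (0 : ℝ) < q := by exact_mod_cast hqp.pos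
    have hg := hgood q hqP hne
    have ht := hT q hqP
    set good := (mult B q).filter (fun n => ∃ x ∈ I, n ∣ x) with hgooddef
    have hsplit : mult B q ⊆ bad ∪ good := by
      intro n hn
      rw [mem_union, hbad, hgooddef, mem_filter, mem_filter]
      by_cases hx : ∃ x ∈ I, n ∣ x
      · exact Or.inr ⟨hn, hx⟩
      · push Not at hx
        exact Or.inl ⟨(mem_mult.1 hn).1, hx⟩
    have hR1 : R (mult B q) ≤ R bad + R good := (R_mono hsplit).trans (R_union_le _ _)
    -- good part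
    set I' := I.filter (fun x => q ∣ x) with hI'
    have hcov : good ⊆ I'.biUnion (fun x =>
        (((PP (cut V x)).filter (fun n => q ∣ n)) ×ˢ (PP (cut W x))).image (fun p => p.1 * p.2) ∪
        ((PP (cut V x)) ×ˢ ((PP (cut W x)).filter (fun n => q ∣ n))).image
          (fun p => p.1 * p.2)) := by
      intro n hn
      rw [hgooddef, mem_filter, mem_mult] at hn
      obtain ⟨⟨hnB, hqn⟩, x, hxI, hnx⟩ := hn
      rw [mem_biUnion]
      refine ⟨x, mem_filter.2 ⟨hxI, hqn.trans hnx⟩, ?_⟩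
      obtain ⟨f, hf, hfn⟩ := mem_PP.1 (hB hnB)
      rw [Fintype.prod_sum_type] at hfn
      set a := ∏ i, f (Sum.inl i) with ha
      set b := ∏ j, f (Sum.inr j) with hb
      have haV : a ∈ PP (cut V x) := by
        rw [PP_cut hVwin, mem_filter, mem_PP]
        refine ⟨⟨fun i => f (Sum.inl i), fun i => hf (Sum.inl i), rfl⟩, ?_⟩
        exact (Dvd.intro _ hfn).trans hnx
      have hbW : b ∈ PP (cut W x) := by
        rw [PP_cut hWwin, mem_filter, mem_PP]
        refine ⟨⟨fun i => f (Sum.inr i), fun i => hf (Sum.inr i), rfl⟩, ?_⟩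
        exact (Dvd.intro_left _ hfn).trans hnx
      rw [mem_union, mem_image, mem_image]
      rcases (hqp.dvd_mul.1 (hfn ▸ hqn : q ∣ a * b)) with hqa | hqb
      · exact Or.inl ⟨(a, b), mem_product.2 ⟨mem_filter.2 ⟨haV, hqa⟩, hbW⟩, hfn⟩
      · exact Or.inr ⟨(a, b), mem_product.2 ⟨haV, mem_filter.2 ⟨hbW, hqb⟩⟩, hfn⟩
    have hper : ∀ x ∈ I', R ((((PP (cut V x)).filter (fun n => q ∣ n)) ×ˢ (PP (cut W x))).image
        (fun p => p.1 * p.2) ∪ ((PP (cut V x)) ×ˢ ((PP (cut W x)).filter (fun n => q ∣ n))).image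
          (fun p => p.1 * p.2)) ≤ (1 / q * μ ^ Fintype.card α) * R ((PP W).filter (fun n => n ∣ x)) +
          μ ^ Fintype.card α * R (((PP W).filter (fun n => q ∣ n)).filter (fun n => n ∣ x)) := by
      intro x hx
      rw [hI', mem_filter] at hx
      have hs := hno x hx.1 hx.2
      have hs1 : ∑ i, R (cut V x i) + 1 ≤ μ * Fintype.card α := by linarith
      have hcV : IsWin (cut V x) := hVwin.sub (cut_sub V x)
      have b1 := R_PP_dvd hcV hqp hμ0 hs1
      have b2 : R (PP (cut V x)) ≤ μ ^ Fintype.card α :=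
        (R_PP_le _).trans (prod_le_pow hμ0 (fun i => R_nonneg _) (by linarith))
      have e1 : (PP (cut W x)).filter (fun n => q ∣ n) =
          ((PP W).filter (fun n => q ∣ n)).filter (fun n => n ∣ x) := by
        rw [PP_cut hWwin, filter_filter, filter_filter]
        exact filter_congr fun n _ => and_comm
      refine (R_union_le _ _).trans (add_le_add ?_ ?_)
      · refine (R_prod_image_le _ _).trans ?_
        rw [PP_cut hWwin]
        exact mul_le_mul_of_nonneg_right b1 (R_nonneg _)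
      · refine (R_prod_image_le _ _).trans ?_
        rw [e1]
        exact mul_le_mul_of_nonneg_right b2 (R_nonneg _)
    have hμk : 0 < μ ^ Fintype.card α := by positivity
    have hsub : I' ⊆ I := filter_subset _ _
    have hs1 : ∑ x ∈ I', R ((PP W).filter (fun n => n ∣ x)) ≤ 1 :=
      (sum_le_sum_of_subset_of_nonneg hsub fun _ _ _ => R_nonneg _).trans
        ((sum_interval _ ℓ h hℓ).trans hRW1)
    have hs2 : ∑ x ∈ I', R (((PP W).filter (fun n => q ∣ n)).filter (fun n => n ∣ x)) ≤ 1 / q := by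
      refine (sum_le_sum_of_subset_of_nonneg hsub fun _ _ _ => R_nonneg _).trans
        ((sum_interval _ ℓ h fun b hb => hℓ b (mem_filter.1 hb).1).trans ?_)
      have := R_PP_dvd hWwin hqp one_pos (by rw [one_mul]; exact hW)
      simpa using this
    have hRgood : R good ≤ 2 * μ ^ Fintype.card α / q := by
      calc R good ≤ _ := R_mono hcov
        _ ≤ _ := R_biUnion_le _ _
        _ ≤ ∑ x ∈ I', ((1 / q * μ ^ Fintype.card α) * R ((PP W).filter (fun n => n ∣ x)) +
            μ ^ Fintype.card α * R (((PP W).filter (fun n => q ∣ n)).filter (fun n => n ∣ x))) :=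
            sum_le_sum hper
        _ = (1 / q * μ ^ Fintype.card α) * ∑ x ∈ I', R ((PP W).filter (fun n => n ∣ x)) +
            μ ^ Fintype.card α *
              ∑ x ∈ I', R (((PP W).filter (fun n => q ∣ n)).filter (fun n => n ∣ x)) := by
            rw [sum_add_distrib, mul_sum, mul_sum]
        _ ≤ (1 / q * μ ^ Fintype.card α) * 1 + μ ^ Fintype.card α * (1 / q) := by
            apply add_le_add
            · exact mul_le_mul_of_nonneg_left hs1 (by positivity)
            · exact mul_le_mul_of_nonneg_left hs2 hμk.le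
        _ = _ := by ring
    have hfin : 2 * μ ^ Fintype.card α / q < ε / (2 * q) := by
      rw [div_lt_div_iff₀ hq0 (by positivity)]
      nlinarith
    have e2 : ε / (2 * (q : ℝ)) + ε / (2 * q) = ε / q := by field_simp; ring
    linarith
  -- step B
  have hBB : ∀ x ∈ I, ∀ x' ∈ I, (2 / 3) * S1 ≤ ∑ i, R (cut V x i) →
      (2 / 3) * S1 ≤ ∑ i, R (cut V x' i) → x < x' → False := by
    intro x hx x' hx' hs hs' hlt
    rw [hI, mem_Icc] at hx hx'
    set P1 := allP V with hP1
    have hRP1 : R P1 = S1 := R_allP hVwin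
    have hcut : ∀ z, ∑ i, R (cut V z i) = R (P1.filter (fun p => p ∣ z)) := by
      intro z
      rw [← R_allP (hVwin.sub (cut_sub V z))]
      congr 1
      ext p
      rw [mem_allP, mem_filter, hP1, mem_allP]
      constructor
      · rintro ⟨i, hi⟩
        exact ⟨⟨i, (mem_filter.1 hi).1⟩, (mem_filter.1 hi).2⟩
      · rintro ⟨⟨i, hi⟩, hd⟩
        exact ⟨i, mem_filter.2 ⟨hi, hd⟩⟩
    rw [hcut] at hs hs'
    set D := P1.filter (fun p => p ∣ x) ∩ P1.filter (fun p => p ∣ x') with hD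
    have hDP : ∀ p ∈ D, (∃ i, p ∈ V i) ∧ p ∣ x ∧ p ∣ x' := by
      intro p hp
      rw [hD, mem_inter, mem_filter, mem_filter, hP1, mem_allP] at hp
      exact ⟨hp.1.1, hp.1.2, hp.2.2⟩
    have hRD : (1 / 3) * S1 ≤ R D := by
      have e := sum_union_inter (s₁ := P1.filter (fun p => p ∣ x))
        (s₂ := P1.filter (fun p => p ∣ x')) (f := fun n : ℕ => (1 / (n : ℝ)))
      have e3 : R (P1.filter (fun p => p ∣ x) ∪ P1.filter (fun p => p ∣ x')) ≤ S1 := by
        rw [← hRP1]
        exact R_mono (union_subset (filter_subset _ _) (filter_subset _ _))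
      unfold R at hs hs' e3 ⊢
      linarith
    have hy0 : 0 < y := by
      rcases Nat.eq_zero_or_pos y with h0 | h0
      · exfalso
        rw [h0, Nat.cast_zero, zero_mul] at hK
        have hK0 : K = 0 := by
          have : (K : ℝ) = 0 := le_antisymm hK (by positivity)
          exact_mod_cast this
        rw [hK0, pow_zero] at hyK
        omega
      · exact h0
    have hcardD : (K : ℝ) ≤ D.card := by
      have h3 : R D ≤ D.card / y := by
        calc R D ≤ ∑ p ∈ D, 1 / (y : ℝ) := by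
              refine sum_le_sum fun p hp => ?_
              obtain ⟨i, hi⟩ := (hDP p hp).1
              exact one_div_le_one_div_of_le (by exact_mod_cast hy0) (by exact_mod_cast hy i p hi)
          _ = D.card / y := by rw [sum_const, nsmul_eq_mul]; ring
      have hyr : (0 : ℝ) < y := by exact_mod_cast hy0
      rw [le_div_iff₀ hyr] at h3
      have h4 : (1 / 3) * S1 * y ≤ R D * y := mul_le_mul_of_nonneg_right hRD hyr.le
      linarith
    have hcardD' : K ≤ D.card := by exact_mod_cast hcardD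
    have hdvd : ∏ p ∈ D, p ∣ x' - x := by
      apply Finset.prod_primes_dvd
      · intro p hp
        obtain ⟨i, hi⟩ := (hDP p hp).1
        exact (hVwin.prime i p hi).prime
      · intro p hp
        exact Nat.dvd_sub (hDP p hp).2.2 (hDP p hp).2.1
    have hle := Nat.le_of_dvd (by omega) hdvd
    have hge : y ^ K ≤ ∏ p ∈ D, p := by
      calc y ^ K ≤ y ^ D.card := Nat.pow_le_pow_right hy0 hcardD'
        _ = ∏ p ∈ D, y := by rw [prod_const]
        _ ≤ ∏ p ∈ D, p := prod_le_prod' fun p hp => by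
            obtain ⟨i, hi⟩ := (hDP p hp).1
            exact hy i p hi
    omega
  -- step C
  have hQne : (QB Z B).Nonempty := by
    rw [nonempty_iff_ne_empty]
    intro h0
    rw [h0, prod_empty] at h2
    omega
  obtain ⟨q0, hq0⟩ := hQne
  obtain ⟨x, hxI, hqx, hsx⟩ := hA q0 hq0
  have hall : ∀ q ∈ QB Z B, q ∣ x := by
    intro q hq
    obtain ⟨x', hx'I, hqx', hsx'⟩ := hA q hq
    rcases lt_trichotomy x x' with hlt | heq | hlt
    · exact (hBB x hxI x' hx'I hsx hsx' hlt).elim
    · rw [heq]; exact hqx'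
    · exact (hBB x' hx'I x hxI hsx' hsx hlt).elim
  have hQx : ∏ q ∈ QB Z B, q ∣ x := by
    apply Finset.prod_primes_dvd _ _ hall
    intro q hq
    rw [QB, mem_filter] at hq
    obtain ⟨i, hi⟩ := mem_allP.1 hq.1
    exact (hZ.prime i q hi).prime
  rw [hI, mem_Icc] at hxI
  have := Nat.le_of_dvd (by omega) hQx
  omega

end Pool.Agent.H71.UF
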