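import Pool.Agent.H71.UF.Core
import Pool.Agent.H61.Adm.Mert

/-!
The choice of the windows (MP_54bae5_nt), for a set of primes of positive lower density.
-/

namespace Pool.Agent.H71.UF

open Finset Filter

open scoped Classical in
/-- the primes of `P` in `(m, n]` -/
noncomputable def prP (P : Set ℕ) (m n : ℕ) : Finset ℕ :=
  (Ioc m n).filter (fun p => p.Prime ∧ p ∈ P)

theorem mem_prP {P : Set ℕ} {m n p : ℕ} : p ∈ prP P m n ↔ m < p ∧ p ≤ n ∧ p.Prime ∧ p ∈ P := by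
  simp [prP, and_assoc]

open scoped Classical in
/-- number of primes of `P` up to `x` -/
noncomputable def cntP (P : Set ℕ) (x : ℕ) : ℕ :=
  ((Icc 1 x).filter (fun p => p.Prime ∧ p ∈ P)).card

theorem cntP_succ (P : Set ℕ) (n : ℕ) : (cntP P (n + 1) : ℝ) = cntP P n +
    (open scoped Classical in if (n + 1).Prime ∧ n + 1 ∈ P then (1 : ℝ) else 0) := by
  classical
  unfold cntP
  rw [card_filter, card_filter, sum_Icc_succ_top (by omega)]
  push_cast
  rfl

theorem R_prP_succ (P : Set ℕ) (m n : ℕ) (h : m ≤ n) : R (prP P m (n + 1)) = R (prP P m n) +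
    (open scoped Classical in if (n + 1).Prime ∧ n + 1 ∈ P then (1 : ℝ) else 0) / (n + 1) := by
  classical
  unfold R prP
  rw [sum_filter, sum_filter, sum_Ioc_succ_top h]
  congr 1
  push_cast
  split_ifs <;> simp

theorem succ_both (P : Set ℕ) (m n : ℕ) (h : m ≤ n) : ∃ a : ℝ,
    (cntP P (n + 1) : ℝ) = cntP P n + a ∧ R (prP P m (n + 1)) = R (prP P m n) + a / (n + 1) :=
  ⟨_, cntP_succ P n, R_prP_succ P m n h⟩

theorem cntP_univ_le (n : ℕ) : cntP Set.univ n = Nat.primeCounting n := by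
  classical
  unfold cntP Nat.primeCounting Nat.primeCounting'
  rw [Nat.count_eq_card_filter_range]
  congr 1
  ext p
  simp only [mem_filter, mem_Icc, mem_range, Set.mem_univ, and_true]
  constructor
  · rintro ⟨⟨_, h⟩, h'⟩; exact ⟨by omega, h'⟩
  · rintro ⟨h, h'⟩; exact ⟨⟨h'.pos, by omega⟩, h'⟩

theorem cntP_le (P : Set ℕ) (n : ℕ) : cntP P n ≤ cntP Set.univ n := by
  classical
  unfold cntP
  apply card_le_card
  intro p hp
  simp only [mem_filter, Set.mem_univ, and_true] at hp ⊢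
  exact ⟨hp.1, hp.2.1⟩

theorem R_prP_le (P : Set ℕ) (m n : ℕ) : R (prP P m n) ≤ R (prP Set.univ m n) := by
  apply R_mono
  intro p hp
  rw [mem_prP] at hp ⊢
  exact ⟨hp.1, hp.2.1, hp.2.2.1, trivial⟩

theorem mertens : ∃ c : ℝ, 0 < c ∧ ∀ m n : ℕ, 2 ≤ m → m ≤ n →
    |R (prP Set.univ m n) - Real.log (Real.log n / Real.log m)| ≤ c / Real.log m := by
  classical
  obtain ⟨c, hc, h⟩ := Pool.Agent.H61.Adm.mert.m2
  refine ⟨c, hc, fun m n hm hn => ?_⟩
  have e : R (prP Set.univ m n) = ∑ p ∈ (Finset.Ioc m n).filter Nat.Prime, 1 / (p : ℝ) := by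
    unfold R prP
    congr 1
    ext p; simp
  rw [e]
  exact h m n hm hn

/-- the mass of `P` in `(m, n]` is at least `δ log (log n / log m) - c / log m` -/
theorem mass_low (P : Set ℕ) (δ : ℝ) (hδ : 0 < δ)
    (hP : ∀ᶠ x : ℕ in atTop, δ * (cntP Set.univ x : ℝ) ≤ cntP P x) :
    ∃ (c : ℝ) (x0 : ℕ), 0 < c ∧ ∀ m n : ℕ, x0 ≤ m → m ≤ n →
      δ * Real.log (Real.log n / Real.log m) - c / Real.log m ≤ R (prP P m n) := by
  obtain ⟨c, hc, hmert⟩ := mertens
  obtain ⟨C, hC, hcheb⟩ := Pool.Agent.H61.Adm.mert.cheb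
  obtain ⟨x0, hx0⟩ := eventually_atTop.1 hP
  refine ⟨δ * c + C, max x0 2, by positivity, fun m n hm hn => ?_⟩
  have hm0 : x0 ≤ m := le_trans (le_max_left _ _) hm
  have hm2 : 2 ≤ m := le_trans (le_max_right _ _) hm
  have key : ∀ n, m ≤ n → ((cntP P n : ℝ) - δ * cntP Set.univ n) / n -
      ((cntP P m : ℝ) - δ * cntP Set.univ m) / m ≤
      R (prP P m n) - δ * R (prP Set.univ m n) := by
    intro n hn
    induction n, hn using Nat.le_induction with
    | base =>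
      have : ∀ P : Set ℕ, R (prP P m m) = 0 := by
        intro P; simp [R, prP]
      rw [this, this]; simp
    | succ n hn ih =>
      have hg := hx0 n (hm0.trans hn)
      obtain ⟨a, ha1, ha2⟩ := succ_both P m n hn
      obtain ⟨b, hb1, hb2⟩ := succ_both Set.univ m n hn
      rw [ha1, ha2, hb1, hb2]
      have hn0 : (0 : ℝ) < n := by
        have : 0 < n := by omega
        exact_mod_cast this
      set g := (cntP P n : ℝ) - δ * cntP Set.univ n with hgdef
      have hg0 : 0 ≤ g := by rw [hgdef]; linarith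
      have h1 : g / (n + 1) ≤ g / n := div_le_div_of_nonneg_left hg0 hn0 (by linarith)
      have e1 : ((cntP P n : ℝ) + a - δ * ((cntP Set.univ n : ℝ) + b)) / ((n + 1 : ℕ) : ℝ) =
          g / (n + 1) + (a / (n + 1) - δ * (b / (n + 1))) := by
        rw [hgdef]; push_cast; ring
      rw [e1]
      linarith
  have h1 := key n hn
  have hg := hx0 n (hm0.trans hn)
  have h2 : 0 ≤ ((cntP P n : ℝ) - δ * cntP Set.univ n) / n := by
    apply div_nonneg (by linarith) (by positivity)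
  have h3 := (abs_le.1 (hmert m n hm2 hn)).1
  have hm0r : (0 : ℝ) < m := by
    have : 0 < m := by omega
    exact_mod_cast this
  have hlm : 0 < Real.log (m : ℝ) := Real.log_pos (by exact_mod_cast (by omega : 1 < m))
  have h4 : ((cntP P m : ℝ) - δ * cntP Set.univ m) / m ≤ C / Real.log m := by
    have h5 := hcheb m hm2
    have h6 : (cntP P m : ℝ) ≤ Nat.primeCounting m := by
      rw [← cntP_univ_le]; exact_mod_cast cntP_le P m
    have h7 : 0 ≤ δ * (cntP Set.univ m : ℝ) := by positivity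
    calc ((cntP P m : ℝ) - δ * cntP Set.univ m) / m ≤ (C * m / Real.log m) / m := by
          apply div_le_div_of_nonneg_right _ hm0r.le
          linarith
      _ = C / Real.log m := by field_simp
  have h8 : δ * (Real.log (Real.log n / Real.log m) - c / Real.log m) ≤
      δ * R (prP Set.univ m n) := mul_le_mul_of_nonneg_left (by linarith) hδ.le
  have e : (δ * c + C) / Real.log m = δ * (c / Real.log m) + C / Real.log m := by ring
  rw [e]
  linarith

theorem trim (A : Finset ℕ) (hA : 5 / 4 ≤ R A) (h6 : ∀ x ∈ A, 6 ≤ x) :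
    ∃ A' ⊆ A, 5 / 4 ≤ R A' ∧ R A' ≤ 17 / 12 := by
  classical
  obtain ⟨B, hB, hmin⟩ := exists_min_image (A.powerset.filter (fun B => 5 / 4 ≤ R B))
    (fun B => B.card) ⟨A, mem_filter.2 ⟨mem_powerset.2 (Subset.refl _), hA⟩⟩
  rw [mem_filter, mem_powerset] at hB
  refine ⟨B, hB.1, hB.2, ?_⟩
  by_contra hcon
  push Not at hcon
  have hne : B.Nonempty := by
    rw [nonempty_iff_ne_empty]
    rintro rfl
    simp only [R, sum_empty] at hcon
    norm_num at hcon
  obtain ⟨x, hx⟩ := hne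
  have h1 := sum_erase_add B (fun n : ℕ => (1 / (n : ℝ))) hx
  have h2 : (1 : ℝ) / x ≤ 1 / 6 :=
    one_div_le_one_div_of_le (by norm_num) (by exact_mod_cast h6 x (hB.1 hx))
  have h3 : B.erase x ∈ A.powerset.filter (fun B => 5 / 4 ≤ R B) := by
    rw [mem_filter, mem_powerset]
    refine ⟨(erase_subset _ _).trans hB.1, ?_⟩
    unfold R at hcon ⊢
    linarith
  have h4 := hmin _ h3
  have h5 := card_erase_lt_of_mem hx
  omega

theorem exists_k (r : ℕ) (ω : ℝ) (hω : 0 < ω) : ∃ k : ℕ, 180 ≤ k ∧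
    4 * ((19 : ℝ) / 20) ^ k < 1 / (2 * k + 3) ∧ 3 * (r : ℝ) ≤ (5 / 4) ^ k * ω ^ 3 := by
  have h1 : Tendsto (fun k : ℕ => (k : ℝ) ^ 1 * ((19 : ℝ) / 20) ^ k) atTop (nhds 0) :=
    tendsto_pow_const_mul_const_pow_of_abs_lt_one 1 (by rw [abs_of_pos] <;> norm_num)
  have h2 : Tendsto (fun k : ℕ => ((5 : ℝ) / 4) ^ k) atTop atTop :=
    tendsto_pow_atTop_atTop_of_one_lt (by norm_num)
  have e1 := h1.eventually (gt_mem_nhds (show (0 : ℝ) < 1 / 100 by norm_num))
  have e2 := h2.eventually (eventually_ge_atTop (3 * (r : ℝ) / ω ^ 3))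
  obtain ⟨k, hk1, hk2, hk3⟩ := (e1.and (e2.and (eventually_ge_atTop 180))).exists
  refine ⟨k, hk3, ?_, ?_⟩
  · have hk : (180 : ℝ) ≤ k := by exact_mod_cast hk3
    rw [lt_div_iff₀ (by positivity)]
    rw [pow_one] at hk1
    have h3 : (0 : ℝ) < (19 / 20) ^ k := by positivity
    nlinarith
  · rw [div_le_iff₀ (by positivity)] at hk2
    exact hk2

theorem exists_par (P : Set ℕ) (δ : ℝ) (hδ : 0 < δ)
    (hP : ∀ᶠ x : ℕ in atTop, δ * (cntP Set.univ x : ℝ) ≤ cntP P x) (r N0 : ℕ) :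
    ∃ (k y v K : ℕ) (ω : ℝ) (V : Fin k → Finset ℕ) (W : Fin 3 → Finset ℕ),
    Par k r y v K ω V W ∧ (∀ i, ∀ p ∈ (Sum.elim V W) i, p ∈ P) ∧
      ∀ n ∈ PP (Sum.elim V W), N0 < n := by
  classical
  obtain ⟨c1, x0, hc1, hlow⟩ := mass_low P δ hδ hP
  obtain ⟨c2, hc2, hmert⟩ := mertens
  obtain ⟨k, hk1, hk2, hk3⟩ := exists_k r (δ / 50) (by positivity)
  -- choice of D
  obtain ⟨D, hD2, hD⟩ : ∃ D : ℕ, 2 ≤ D ∧ 27 / 20 ≤ δ * Real.log D := by
    have h1 : Tendsto (fun y : ℕ => Real.log (y : ℝ)) atTop atTop :=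
      Real.tendsto_log_atTop.comp tendsto_natCast_atTop_atTop
    obtain ⟨D, h2, h3⟩ := ((h1.eventually (eventually_ge_atTop (27 / 20 / δ))).and
      (eventually_ge_atTop 2)).exists
    refine ⟨D, h3, ?_⟩
    rw [div_le_iff₀ hδ] at h2
    linarith
  -- choice of y
  obtain ⟨y, hy1, hy2, hy0, hy3, hy4⟩ : ∃ y : ℕ, 200 * D ^ k ≤ y ∧ N0 < y ∧ x0 ≤ y ∧
      100 * (c1 + c2) ≤ Real.log y ∧ 100 * (c1 + c2) ≤ δ * Real.log y := by
    have h1 : Tendsto (fun y : ℕ => Real.log (y : ℝ)) atTop atTop :=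
      Real.tendsto_log_atTop.comp tendsto_natCast_atTop_atTop
    obtain ⟨y, h2, h2', h3, h4, h5⟩ :=
      ((h1.eventually (eventually_ge_atTop (100 * (c1 + c2)))).and
      ((h1.eventually (eventually_ge_atTop (100 * (c1 + c2) / δ))).and
      ((eventually_ge_atTop (200 * D ^ k)).and ((eventually_gt_atTop N0).and
      (eventually_ge_atTop x0))))).exists
    rw [div_le_iff₀ hδ] at h2'
    exact ⟨y, h3, h4, h5, h2, by linarith⟩
  have hDk : 1 ≤ D ^ k := Nat.one_le_pow _ _ (by omega)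
  have hkD : k < D ^ k := Nat.lt_pow_self (by omega)
  have hy200 : 200 ≤ y := by omega
  have hyr : (200 : ℝ) ≤ y := by exact_mod_cast hy200
  have hlogy : 0 < Real.log y := Real.log_pos (by linarith)
  set v := y ^ (k * D ^ k) with hv
  have hkk : 1 ≤ k * D ^ k := Nat.one_le_iff_ne_zero.2 (by positivity)
  have hyv : y ≤ v := by
    calc y = y ^ 1 := (pow_one y).symm
      _ ≤ v := Nat.pow_le_pow_right (by omega) hkk
  have hv200 : 200 ≤ v := hy200.trans hyv
  have hyDk : y ^ D ^ k ≤ v := by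
    apply Nat.pow_le_pow_right (by omega)
    exact Nat.le_mul_of_pos_left _ (by omega)
  have hlogv : Real.log y ≤ Real.log v :=
    Real.log_le_log (by linarith) (by exact_mod_cast hyv)
  -- errors
  have herr : ∀ m : ℕ, y ≤ m → c1 / Real.log m ≤ 1 / 100 ∧ c1 / Real.log m ≤ δ / 100 ∧
      c2 / Real.log m ≤ 1 / 100 := by
    intro m hm
    have h1 : Real.log y ≤ Real.log m := Real.log_le_log (by linarith) (by exact_mod_cast hm)
    have h2 : 0 < Real.log (m : ℝ) := by linarith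
    have h3 : δ * Real.log y ≤ δ * Real.log m := mul_le_mul_of_nonneg_left h1 hδ.le
    refine ⟨?_, ?_, ?_⟩
    · rw [div_le_div_iff₀ h2 (by norm_num)]; linarith
    · rw [div_le_div_iff₀ h2 (by norm_num)]; linarith
    · rw [div_le_div_iff₀ h2 (by norm_num)]; linarith
  have hypow : ∀ e : ℕ, 1 ≤ e → y ≤ y ^ e := fun e he => by
    calc y = y ^ 1 := (pow_one y).symm
      _ ≤ y ^ e := Nat.pow_le_pow_right (by omega) he
  have hvpow : ∀ e : ℕ, 1 ≤ e → v ≤ v ^ e := fun e he => by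
    calc v = v ^ 1 := (pow_one v).symm
      _ ≤ v ^ e := Nat.pow_le_pow_right (by omega) he
  have hDi : ∀ i : ℕ, 1 ≤ D ^ i := fun i => Nat.one_le_pow _ _ (by omega)
  -- the windows V
  have hVex : ∀ i : Fin k, ∃ A' ⊆ prP P (y ^ D ^ (i : ℕ)) (y ^ D ^ ((i : ℕ) + 1)),
      5 / 4 ≤ R A' ∧ R A' ≤ 17 / 12 := by
    intro i
    have hmy : y ≤ y ^ D ^ (i : ℕ) := hypow _ (hDi _)
    apply trim
    · have h1 := hlow (y ^ D ^ (i : ℕ)) (y ^ D ^ ((i : ℕ) + 1)) (hy0.trans hmy)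
        (Nat.pow_le_pow_right (by omega) (Nat.pow_le_pow_right (by omega) (by omega)))
      have h2 := (herr (y ^ D ^ (i : ℕ)) hmy).1
      have hD0 : (D : ℝ) ≠ 0 := by
        have : 0 < D := by omega
        positivity
      have e : Real.log ((y ^ D ^ ((i : ℕ) + 1) : ℕ) : ℝ) /
          Real.log ((y ^ D ^ (i : ℕ) : ℕ) : ℝ) = D := by
        push_cast
        rw [Real.log_pow, Real.log_pow]
        push_cast
        field_simp
        ring
      rw [e] at h1
      linarith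
    · intro x hx
      have := (mem_prP.1 hx).1
      omega
  choose V hVsub hVb using hVex
  set W : Fin 3 → Finset ℕ := fun j => prP P (v ^ (20 + (j : ℕ))) (v ^ (21 + (j : ℕ))) with hWdef
  have hWb : ∀ j : Fin 3, δ / 50 ≤ R (W j) ∧ R (W j) ≤ 1 / 2 := by
    intro j
    have hvm : v ≤ v ^ (20 + (j : ℕ)) := hvpow _ (by omega)
    have hle : v ^ (20 + (j : ℕ)) ≤ v ^ (21 + (j : ℕ)) :=
      Nat.pow_le_pow_right (by omega) (by omega)
    have h1 := hlow (v ^ (20 + (j : ℕ))) (v ^ (21 + (j : ℕ))) ((hy0.trans hyv).trans hvm) hle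
    have h1' := hmert (v ^ (20 + (j : ℕ))) (v ^ (21 + (j : ℕ))) (le_trans (by omega) hvm) hle
    have h2 := herr (v ^ (20 + (j : ℕ))) (hyv.trans hvm)
    have hlv : Real.log (v : ℝ) ≠ 0 := by
      have : 0 < Real.log (v : ℝ) := lt_of_lt_of_le hlogy hlogv
      exact this.ne'
    have hj : (j : ℕ) ≤ 2 := by omega
    have hjr : ((j : ℕ) : ℝ) ≤ 2 := by exact_mod_cast hj
    have hj0 : (0 : ℝ) ≤ ((j : ℕ) : ℝ) := by positivity
    have e : Real.log ((v ^ (21 + (j : ℕ)) : ℕ) : ℝ) / Real.log ((v ^ (20 + (j : ℕ)) : ℕ) : ℝ) =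
        (21 + ((j : ℕ) : ℝ)) / (20 + ((j : ℕ) : ℝ)) := by
      push_cast
      rw [Real.log_pow, Real.log_pow]
      push_cast
      rw [mul_div_mul_right _ _ hlv]
    rw [e] at h1 h1'
    have hpos : (0 : ℝ) < (21 + ((j : ℕ) : ℝ)) / (20 + ((j : ℕ) : ℝ)) := by positivity
    have h3 := Real.one_sub_inv_le_log_of_pos hpos
    have h4 := Real.log_le_sub_one_of_pos hpos
    have e5 : 1 - ((21 + ((j : ℕ) : ℝ)) / (20 + ((j : ℕ) : ℝ)))⁻¹ = 1 / (21 + ((j : ℕ) : ℝ)) := by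
      field_simp; ring
    have e6 : (21 + ((j : ℕ) : ℝ)) / (20 + ((j : ℕ) : ℝ)) - 1 = 1 / (20 + ((j : ℕ) : ℝ)) := by
      field_simp; ring
    rw [e5] at h3
    rw [e6] at h4
    have h7 : (1 : ℝ) / 23 ≤ 1 / (21 + ((j : ℕ) : ℝ)) :=
      one_div_le_one_div_of_le (by positivity) (by linarith)
    have h8 : 1 / (20 + ((j : ℕ) : ℝ)) ≤ 1 / 20 :=
      one_div_le_one_div_of_le (by norm_num) (by linarith)
    have h9 : δ * (1 / 23) ≤ δ * Real.log ((21 + ((j : ℕ) : ℝ)) / (20 + ((j : ℕ) : ℝ))) :=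
      mul_le_mul_of_nonneg_left (by linarith) hδ.le
    constructor
    · change δ / 50 ≤ R (prP P (v ^ (20 + (j : ℕ))) (v ^ (21 + (j : ℕ))))
      linarith [h2.2.1]
    · refine (R_prP_le _ _ _).trans ?_
      have h5 := (abs_le.1 h1').2
      linarith [h2.2.2]
  have hVmem : ∀ (i : Fin k) (p : ℕ), p ∈ V i →
      y ^ D ^ (i : ℕ) < p ∧ p ≤ y ^ D ^ ((i : ℕ) + 1) ∧ p.Prime ∧ p ∈ P :=
    fun i p hp => mem_prP.1 (hVsub i hp)
  have hWmem : ∀ (j : Fin 3) (p : ℕ), p ∈ W j ↔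
      v ^ (20 + (j : ℕ)) < p ∧ p ≤ v ^ (21 + (j : ℕ)) ∧ p.Prime ∧ p ∈ P := fun j p => mem_prP
  have hVle : ∀ i : Fin k, ∀ p ∈ V i, p ≤ y ^ D ^ k := by
    intro i p hp
    refine (hVmem i p hp).2.1.trans (Nat.pow_le_pow_right (by omega) ?_)
    exact Nat.pow_le_pow_right (by omega) (by omega)
  have hVgt : ∀ i : Fin k, ∀ p ∈ V i, y < p := by
    intro i p hp
    exact lt_of_le_of_lt (hypow _ (hDi _)) (hVmem i p hp).1
  have hwin : IsWin (Sum.elim V W) := by
    refine ⟨?_, ?_⟩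
    · rintro (i | j) p hp
      · exact (hVmem i p hp).2.2.1
      · exact ((hWmem j p).1 hp).2.2.1
    · have hVV : ∀ i i' : Fin k, ∀ p, p ∈ V i → p ∈ V i' → ¬ i < i' := by
        intro i i' p hi hi' hlt
        have h1 := (hVmem i p hi).2.1
        have h2 := (hVmem i' p hi').1
        have h3 : y ^ D ^ ((i : ℕ) + 1) ≤ y ^ D ^ (i' : ℕ) :=
          Nat.pow_le_pow_right (by omega) (Nat.pow_le_pow_right (by omega)
            (by have : (i : ℕ) < i' := hlt; omega))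
        omega
      have hWW : ∀ i i' : Fin 3, ∀ p, p ∈ W i → p ∈ W i' → ¬ i < i' := by
        intro i i' p hi hi' hlt
        have h1 := ((hWmem i p).1 hi).2.1
        have h2 := ((hWmem i' p).1 hi').1
        have h3 : v ^ (21 + (i : ℕ)) ≤ v ^ (20 + (i' : ℕ)) :=
          Nat.pow_le_pow_right (by omega) (by have : (i : ℕ) < i' := hlt; omega)
        omega
      have hVW : ∀ (i : Fin k) (j : Fin 3) (p : ℕ), p ∈ V i → p ∈ W j → False := by
        intro i j p hi hj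
        have h1 := hVle i p hi
        have h2 := ((hWmem j p).1 hj).1
        have h3 := hvpow (20 + (j : ℕ)) (by omega)
        omega
      rintro (i | j) (i' | j') p hi hj
      · rcases lt_trichotomy i i' with h | h | h
        · exact (hVV i i' p hi hj h).elim
        · rw [h]
        · exact (hVV i' i p hj hi h).elim
      · exact (hVW i j' p hi hj).elim
      · exact (hVW i' j p hj hi).elim
      · rcases lt_trichotomy j j' with h | h | h
        · exact (hWW j j' p hi hj h).elim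
        · rw [h]
        · exact (hWW j' j p hj hi h).elim
  have hbgt : ∀ b ∈ PP W, v ^ 63 < b := by
    intro b hb
    obtain ⟨f, hf, rfl⟩ := mem_PP.1 hb
    rw [Fin.prod_univ_three]
    have h0 := ((hWmem 0 _).1 (hf 0)).1
    have h1 := ((hWmem 1 _).1 (hf 1)).1
    have h2 := ((hWmem 2 _).1 (hf 2)).1
    have e0 : v ^ (20 + ((0 : Fin 3) : ℕ)) = v ^ 20 := by simp
    have e1 : v ^ (20 + ((1 : Fin 3) : ℕ)) = v ^ 21 := by simp
    have e2 : v ^ (20 + ((2 : Fin 3) : ℕ)) = v ^ 22 := by simp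
    rw [e0] at h0; rw [e1] at h1; rw [e2] at h2
    calc v ^ 63 = v ^ 20 * v ^ 21 * v ^ 22 := by ring
      _ < f 0 * f 1 * f 2 := by
        apply Nat.mul_lt_mul'' _ h2
        exact Nat.mul_lt_mul'' h0 h1
  have hble : ∀ b ∈ PP W, b ≤ v ^ 66 := by
    intro b hb
    obtain ⟨f, hf, rfl⟩ := mem_PP.1 hb
    rw [Fin.prod_univ_three]
    have h0 := ((hWmem 0 _).1 (hf 0)).2.1
    have h1 := ((hWmem 1 _).1 (hf 1)).2.1
    have h2 := ((hWmem 2 _).1 (hf 2)).2.1
    have e0 : v ^ (21 + ((0 : Fin 3) : ℕ)) = v ^ 21 := by simp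
    have e1 : v ^ (21 + ((1 : Fin 3) : ℕ)) = v ^ 22 := by simp
    have e2 : v ^ (21 + ((2 : Fin 3) : ℕ)) = v ^ 23 := by simp
    rw [e0] at h0; rw [e1] at h1; rw [e2] at h2
    calc f 0 * f 1 * f 2 ≤ v ^ 21 * v ^ 22 * v ^ 23 :=
          Nat.mul_le_mul (Nat.mul_le_mul h0 h1) h2
      _ = v ^ 66 := by ring
  refine ⟨k, y, v, 64 * (k * D ^ k), δ / 50, V, W, ⟨hwin, hk1, hk2, by positivity, hk3, ?_,
    fun i => (hVb i).1, fun i => (hVb i).2, fun j => (hWb j).1, fun j => (hWb j).2,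
    fun i p hp => (hVgt i p hp).le, ?_, ?_, ?_, hbgt, hble, ?_, ?_⟩, ?_, ?_⟩
  · omega
  · intro i p hp
    exact ((hVle i p hp).trans hyDk).trans (hvpow _ (by norm_num))
  · intro j p hp
    refine ((hWmem j p).1 hp).2.1.trans (Nat.pow_le_pow_right (by omega) ?_)
    omega
  · intro a ha
    obtain ⟨f, hf, rfl⟩ := mem_PP.1 ha
    calc ∏ i, f i ≤ ∏ _i : Fin k, y ^ D ^ k := prod_le_prod' fun i _ => hVle i _ (hf i)
      _ = (y ^ D ^ k) ^ k := by rw [prod_const, card_univ, Fintype.card_fin]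
      _ = v := by rw [← pow_mul, hv, mul_comm]
  · have h1 : (k : ℝ) * (5 / 4) ≤ ∑ i, R (V i) := by
      calc (k : ℝ) * (5 / 4) = ∑ _i : Fin k, (5 / 4 : ℝ) := by simp
        _ ≤ _ := sum_le_sum fun i _ => (hVb i).1
    have h2 : (200 : ℝ) * D ^ k ≤ y := by exact_mod_cast hy1
    have hk0 : (0 : ℝ) ≤ k := by positivity
    push_cast
    calc (64 : ℝ) * (k * D ^ k) ≤ (200 * D ^ k) * ((1 / 3) * (k * (5 / 4))) := by
          have : (0 : ℝ) ≤ k * D ^ k := by positivity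
          nlinarith
      _ ≤ y * ((1 / 3) * ∑ i, R (V i)) := by
          apply mul_le_mul h2 _ (by positivity) (by positivity)
          linarith
  · have e : y ^ (64 * (k * D ^ k)) = v ^ 64 := by
      rw [hv, ← pow_mul, mul_comm]
    rw [e]
    calc 2 * v ^ 62 < v ^ 2 * v ^ 62 := by
          apply Nat.mul_lt_mul_of_pos_right _ (Nat.pow_pos (by omega))
          nlinarith
      _ = v ^ 64 := by ring
  · rintro (i | j) p hp
    · exact (hVmem i p hp).2.2.2
    · exact ((hWmem j p).1 hp).2.2.2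
  · intro n hn
    obtain ⟨f, hf, hfn⟩ := mem_PP.1 hn
    have hd : f (Sum.inr 0) ∣ n := by rw [← hfn]; exact dvd_prod_of_mem _ (mem_univ _)
    have hpos : 0 < n := by
      rw [← hfn]
      exact prod_pos fun i _ => (hwin.prime i _ (hf i)).pos
    have h1 := Nat.le_of_dvd hpos hd
    have h2 := ((hWmem 0 _).1 (hf (Sum.inr 0))).1
    have h3 := hvpow (20 + ((0 : Fin 3) : ℕ)) (by omega)
    omega

/-- all prime factors of `n > 0` lie in `P` -/
def Over (P : Set ℕ) (n : ℕ) : Prop := 0 < n ∧ ∀ p : ℕ, p.Prime → p ∣ n → p ∈ P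

/-- Monochromatic sums of unit fractions equal to 1, beyond any bound, with all prime factors
of the denominators in `P`. -/
theorem mono (P : Set ℕ) (δ : ℝ) (hδ : 0 < δ)
    (hP : ∀ᶠ x : ℕ in atTop, δ * (cntP Set.univ x : ℝ) ≤ cntP P x) (r N0 : ℕ) (χ : ℕ → Fin r) :
    ∃ (c : Fin r) (S : Finset ℕ), (∀ n ∈ S, N0 < n ∧ Over P n ∧ χ n = c) ∧
      ∑ n ∈ S, (1 / (n : ℚ)) = 1 := by
  obtain ⟨k, y, v, K, ω, V, W, hpar, hPP, hN0⟩ := exists_par P δ hδ hP r N0
  obtain ⟨c, S, hS, hsum⟩ := colour_core hpar χ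
  refine ⟨c, S, fun n hn => ⟨hN0 n (hS n hn).1, ⟨?_, ?_⟩, (hS n hn).2⟩, hsum⟩
  · exact lt_of_le_of_lt (Nat.zero_le _) (hN0 n (hS n hn).1)
  · intro p hp hpn
    obtain ⟨f, hf, hfn⟩ := mem_PP.1 (hS n hn).1
    obtain ⟨i, hi⟩ := eq_of_dvd_prod hpar.win hf hp (hfn ▸ hpn)
    rw [← hi]
    exact hPP i _ (hf i)

end Pool.Agent.H71.UF
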