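import Pool.Agent.H71.UF.Circle

/-!
Pruning (MP_54bae5_nt).
-/

namespace Pool.Agent.H71.UF

open Finset

/-- elements of `B` divisible by `q` -/
noncomputable def mult (B : Finset ℕ) (q : ℕ) : Finset ℕ := B.filter (fun n => q ∣ n)

theorem mem_mult {B : Finset ℕ} {q n : ℕ} : n ∈ mult B q ↔ n ∈ B ∧ q ∣ n := by
  simp [mult]

theorem R_union_le (A B : Finset ℕ) : R (A ∪ B) ≤ R A + R B := by
  classical
  have := sum_union_inter (s₁ := A) (s₂ := B) (f := fun n : ℕ => (1 / (n : ℝ)))
  have h2 : 0 ≤ R (A ∩ B) := R_nonneg _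
  unfold R at h2 ⊢
  linarith

theorem R_biUnion_le {κ : Type*} [DecidableEq κ] (s : Finset κ) (t : κ → Finset ℕ) :
    R (s.biUnion t) ≤ ∑ a ∈ s, R (t a) := by
  induction s using Finset.induction_on with
  | empty => simp [R]
  | insert a s ha ih =>
    rw [biUnion_insert, sum_insert ha]
    exact (R_union_le _ _).trans (by linarith)

theorem prune (P A : Finset ℕ) (ε M : ℝ) (hε : 0 < ε) (hM : 0 < M)
    (hA : ∀ n ∈ A, M ≤ n)
    (h1 : 2 + ε * R P ≤ R A) (h2 : ε * R P + P.card / M < 2) :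
    ∃ B ⊆ A, 2 - 1 / M ≤ R B ∧ R B < 2 ∧
      ∀ q ∈ P, (mult B q).Nonempty → ε / q ≤ R (mult B q) := by
  classical
  set QQ : Finset ℕ → Finset ℕ := fun B => P.filter (fun q => (mult B q).Nonempty) with hQQ
  set Good : Finset ℕ → Prop := fun B =>
    ∀ q ∈ P, (mult B q).Nonempty → ε / q ≤ R (mult B q) with hGood
  -- step 1
  obtain ⟨G, hG, hGmax⟩ := exists_max_image A.powerset (fun B => R B - ε * R (QQ B))
    ⟨A, mem_powerset.2 (Subset.refl _)⟩
  rw [mem_powerset] at hG
  have hGgood : Good G := by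
    intro q hq hne
    by_contra hlt
    push Not at hlt
    have hsub : G \ mult G q ⊆ A := sdiff_subset.trans hG
    have h3 := hGmax (G \ mult G q) (mem_powerset.2 hsub)
    have hR : R (G \ mult G q) = R G - R (mult G q) := by
      have := sum_sdiff (f := fun n : ℕ => (1 / (n : ℝ))) (filter_subset (fun n => q ∣ n) G)
      unfold R mult
      linarith
    have hQ : QQ (G \ mult G q) ⊆ (QQ G).erase q := by
      intro q' hq'
      rw [hQQ] at hq'
      simp only [mem_filter] at hq'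
      obtain ⟨hq'P, ⟨n, hn⟩⟩ := hq'
      rw [mem_mult, mem_sdiff, mem_mult] at hn
      rw [mem_erase, hQQ]
      simp only [mem_filter]
      refine ⟨?_, hq'P, ⟨n, mem_mult.2 ⟨hn.1.1, hn.2⟩⟩⟩
      rintro rfl
      exact hn.1.2 ⟨hn.1.1, hn.2⟩
    have hqQ : q ∈ QQ G := by
      rw [hQQ]; simp only [mem_filter]; exact ⟨hq, hne⟩
    have hRQ : R (QQ (G \ mult G q)) ≤ R (QQ G) - 1 / q := by
      have h4 := R_mono hQ
      have h5 := sum_erase_add (QQ G) (fun n : ℕ => (1 / (n : ℝ))) hqQ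
      unfold R at h4 ⊢
      linarith
    have h6 : ε * R (QQ (G \ mult G q)) ≤ ε * (R (QQ G) - 1 / q) :=
      mul_le_mul_of_nonneg_left hRQ hε.le
    have h7 : ε * (R (QQ G) - 1 / q) = ε * R (QQ G) - ε / q := by ring
    rw [hR] at h3
    linarith
  have hRG : 2 ≤ R G := by
    have h3 := hGmax A (mem_powerset.2 (Subset.refl _))
    have h4 : R (QQ A) ≤ R P := R_mono (filter_subset _ _)
    have h5 : ε * R (QQ A) ≤ ε * R P := mul_le_mul_of_nonneg_left h4 hε.le
    have h6 : 0 ≤ ε * R (QQ G) := mul_nonneg hε.le (R_nonneg _)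
    linarith
  have hM1 : 0 < 1 / M := by positivity
  -- step 2
  set C := G.powerset.filter (fun B => Good B ∧ 2 - 1 / M ≤ R B) with hC
  obtain ⟨B, hB, hBmin⟩ := exists_min_image C (fun B => B.card)
    ⟨G, mem_filter.2 ⟨mem_powerset.2 (Subset.refl _), hGgood, by linarith⟩⟩
  rw [hC, mem_filter, mem_powerset] at hB
  obtain ⟨hBG, hBgood, hBR⟩ := hB
  refine ⟨B, hBG.trans hG, hBR, ?_, hBgood⟩
  by_contra hge
  push Not at hge
  -- find x
  have hx : ∃ x ∈ B, ∀ q ∈ P, q ∣ x → ε / q + 1 / M ≤ R (mult B q) := by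
    by_contra hno
    push Not at hno
    have hcov : B ⊆ (P.filter (fun q => R (mult B q) < ε / q + 1 / M)).biUnion (mult B) := by
      intro x hx
      obtain ⟨q, hq, hqx, hlt⟩ := hno x hx
      rw [mem_biUnion]
      exact ⟨q, mem_filter.2 ⟨hq, hlt⟩, mem_mult.2 ⟨hx, hqx⟩⟩
    have h3 : R B ≤ ∑ q ∈ P.filter (fun q => R (mult B q) < ε / q + 1 / M), R (mult B q) := by
      calc R B ≤ R ((P.filter (fun q => R (mult B q) < ε / q + 1 / M)).biUnion (mult B)) :=
            R_mono hcov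
        _ ≤ _ := by
          exact R_biUnion_le _ _
    have h4 : ∑ q ∈ P.filter (fun q => R (mult B q) < ε / q + 1 / M), R (mult B q) ≤
        ∑ q ∈ P, (ε / q + 1 / M) := by
      calc _ ≤ ∑ q ∈ P.filter (fun q => R (mult B q) < ε / q + 1 / M), (ε / q + 1 / M) :=
            sum_le_sum fun q hq => (mem_filter.1 hq).2.le
        _ ≤ _ := sum_le_sum_of_subset_of_nonneg (filter_subset _ _)
            fun q _ _ => by positivity
    have h5 : ∑ q ∈ P, (ε / (q : ℝ) + 1 / M) = ε * R P + P.card / M := by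
      rw [sum_add_distrib, sum_const, nsmul_eq_mul, R, mul_sum]
      congr 1
      · exact sum_congr rfl fun q _ => by ring
      · ring
    linarith
  obtain ⟨x, hxB, hxq⟩ := hx
  have hxM : M ≤ x := hA x (hG (hBG hxB))
  have hx1 : (1 : ℝ) / x ≤ 1 / M := one_div_le_one_div_of_le hM hxM
  have hRe : R (B.erase x) = R B - 1 / x := by
    have := sum_erase_add B (fun n : ℕ => (1 / (n : ℝ))) hxB
    unfold R; linarith
  have hmem : B.erase x ∈ C := by
    rw [hC, mem_filter, mem_powerset]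
    refine ⟨(erase_subset _ _).trans hBG, ?_, by rw [hRe]; linarith⟩
    intro q hq hne
    by_cases hqx : q ∣ x
    · have h3 := hxq q hq hqx
      have h4 : mult (B.erase x) q = (mult B q).erase x := by
        ext n; simp only [mem_mult, mem_erase]; tauto
      have h5 := sum_erase_add (mult B q) (fun n : ℕ => (1 / (n : ℝ))) (mem_mult.2 ⟨hxB, hqx⟩)
      rw [h4]
      unfold R at h3 ⊢
      linarith
    · have h4 : mult (B.erase x) q = mult B q := by
        ext n; simp only [mem_mult, mem_erase]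
        constructor
        · rintro ⟨⟨_, h⟩, h'⟩; exact ⟨h, h'⟩
        · rintro ⟨h, h'⟩
          refine ⟨⟨?_, h⟩, h'⟩
          rintro rfl; exact hqx h'
      rw [h4] at hne ⊢
      exact hBgood q hq hne
  have h6 := hBmin _ hmem
  have h7 := card_erase_lt_of_mem hxB
  omega

end Pool.Agent.H71.UF
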