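import Pool.Agent.H71.UF.Prune

/-!
Products of one prime from each window (MP_54bae5_nt).
-/

namespace Pool.Agent.H71.UF

open Finset

set_option linter.unusedSectionVars false

theorem R_image_le {κ : Type*} (s : Finset κ) (g : κ → ℕ) :
    R (s.image g) ≤ ∑ a ∈ s, 1 / (g a : ℝ) := by
  classical
  have h := R_biUnion_le s (fun a => ({g a} : Finset ℕ))
  rw [biUnion_singleton] at h
  simpa [R] using h

variable {ι : Type*} [Fintype ι] [DecidableEq ι]

/-- products of one element of each window -/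
noncomputable def PP (V : ι → Finset ℕ) : Finset ℕ :=
  (Fintype.piFinset V).image (fun f => ∏ i, f i)

theorem mem_PP {V : ι → Finset ℕ} {n : ℕ} :
    n ∈ PP V ↔ ∃ f : ι → ℕ, (∀ i, f i ∈ V i) ∧ ∏ i, f i = n := by
  simp [PP, Fintype.mem_piFinset]

/-- windows: disjoint sets of primes -/
structure IsWin (V : ι → Finset ℕ) : Prop where
  prime : ∀ i, ∀ p ∈ V i, p.Prime
  disj : ∀ i j p, p ∈ V i → p ∈ V j → i = j

theorem IsWin.sub {V V' : ι → Finset ℕ} (h : IsWin V) (h' : ∀ i, V' i ⊆ V i) : IsWin V' :=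
  ⟨fun i p hp => h.prime i p (h' i hp), fun i j p hi hj => h.disj i j p (h' i hi) (h' j hj)⟩

theorem eq_of_dvd_prod {V : ι → Finset ℕ} (h : IsWin V) {f : ι → ℕ} (hf : ∀ i, f i ∈ V i)
    {q : ℕ} (hq : q.Prime) (hd : q ∣ ∏ i, f i) : ∃ i, f i = q := by
  rw [hq.prime.dvd_finsetProd_iff] at hd
  obtain ⟨i, _, hi⟩ := hd
  exact ⟨i, ((Nat.prime_dvd_prime_iff_eq hq (h.prime i _ (hf i))).1 hi).symm⟩

theorem injOn_prod {V : ι → Finset ℕ} (h : IsWin V) :
    Set.InjOn (fun f : ι → ℕ => ∏ i, f i) (Fintype.piFinset V : Set (ι → ℕ)) := by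
  intro f hf g hg hfg
  simp only [mem_coe, Fintype.mem_piFinset] at hf hg
  funext i
  have hp := h.prime i _ (hf i)
  have hd : f i ∣ ∏ i, g i := by
    rw [← show ∏ i, f i = ∏ i, g i from hfg]; exact dvd_prod_of_mem _ (mem_univ i)
  obtain ⟨j, hj⟩ := eq_of_dvd_prod h hg hp hd
  have : j = i := h.disj j i (f i) (hj ▸ hg j) (hf i)
  rw [this] at hj
  exact hj.symm

theorem R_PP {V : ι → Finset ℕ} (h : IsWin V) : R (PP V) = ∏ i, R (V i) := by
  unfold R PP
  rw [sum_image (injOn_prod h), prod_univ_sum]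
  refine sum_congr rfl fun f _ => ?_
  push_cast
  rw [one_div, ← prod_inv_distrib]
  exact prod_congr rfl fun i _ => by rw [one_div]

theorem R_PP_le (V : ι → Finset ℕ) : R (PP V) ≤ ∏ i, R (V i) := by
  refine (R_image_le _ _).trans (le_of_eq ?_)
  unfold R
  rw [prod_univ_sum]
  refine sum_congr rfl fun f _ => ?_
  push_cast
  rw [one_div, ← prod_inv_distrib]
  exact prod_congr rfl fun i _ => by rw [one_div]

/-- the part of the windows dividing `x` -/
noncomputable def cut (V : ι → Finset ℕ) (x : ℕ) : ι → Finset ℕ :=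
  fun i => (V i).filter (fun p => p ∣ x)

theorem cut_sub (V : ι → Finset ℕ) (x : ℕ) (i : ι) : cut V x i ⊆ V i := filter_subset _ _

theorem PP_cut {V : ι → Finset ℕ} (h : IsWin V) (x : ℕ) :
    PP (cut V x) = (PP V).filter (fun n => n ∣ x) := by
  ext n
  rw [mem_filter, mem_PP, mem_PP]
  constructor
  · rintro ⟨f, hf, rfl⟩
    refine ⟨⟨f, fun i => cut_sub V x i (hf i), rfl⟩, ?_⟩
    have hinj : Set.InjOn f (univ : Finset ι) := by
      intro i _ j _ hij
      exact h.disj i j (f i) (cut_sub V x i (hf i)) (hij ▸ cut_sub V x j (hf j))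
    have e : ∏ i, f i = ∏ p ∈ univ.image f, p := by
      rw [prod_image hinj]
    rw [e]
    apply Finset.prod_primes_dvd
    · intro p hp
      obtain ⟨i, _, rfl⟩ := mem_image.1 hp
      exact (h.prime i _ (cut_sub V x i (hf i))).prime
    · intro p hp
      obtain ⟨i, _, rfl⟩ := mem_image.1 hp
      exact (mem_filter.1 (hf i)).2
  · rintro ⟨⟨f, hf, rfl⟩, hd⟩
    refine ⟨f, fun i => mem_filter.2 ⟨hf i, (dvd_prod_of_mem _ (mem_univ i)).trans hd⟩, rfl⟩

/-- a product bound from a sum bound -/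
theorem prod_le_pow {c : ι → ℝ} {μ : ℝ} (hμ : 0 < μ) (hc : ∀ i, 0 ≤ c i)
    (hs : ∑ i, c i ≤ μ * Fintype.card ι) : ∏ i, c i ≤ μ ^ Fintype.card ι := by
  have h1 : ∏ i, (c i / μ) ≤ 1 := by
    calc ∏ i, (c i / μ) ≤ ∏ i, Real.exp (c i / μ - 1) := by
          refine prod_le_prod (fun i _ => div_nonneg (hc i) hμ.le) fun i _ => ?_
          have := Real.add_one_le_exp (c i / μ - 1)
          linarith
      _ = Real.exp ((∑ i, c i) / μ - Fintype.card ι) := by
          rw [← Real.exp_sum]
          congr 1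
          rw [sum_sub_distrib, ← sum_div]; simp
      _ ≤ 1 := by
          rw [Real.exp_le_one_iff, sub_nonpos, div_le_iff₀ hμ]
          linarith
  rw [prod_div_distrib, prod_const, card_univ, div_le_one (by positivity)] at h1
  exact h1

/-- the elements divisible by a prime `q` -/
theorem R_PP_dvd {V : ι → Finset ℕ} (h : IsWin V) {q : ℕ} (hq : q.Prime) {μ : ℝ} (hμ : 0 < μ)
    (hs : ∑ i, R (V i) + 1 ≤ μ * Fintype.card ι) :
    R ((PP V).filter (fun n => q ∣ n)) ≤ (1 / q) * μ ^ Fintype.card ι := by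
  by_cases hex : ∃ i, q ∈ V i
  · obtain ⟨i, hi⟩ := hex
    have hsub : (PP V).filter (fun n => q ∣ n) ⊆ PP (Function.update V i {q}) := by
      intro n hn
      rw [mem_filter, mem_PP] at hn
      obtain ⟨⟨f, hf, rfl⟩, hd⟩ := hn
      obtain ⟨j, hj⟩ := eq_of_dvd_prod h hf hq hd
      have hji : j = i := h.disj j i q (hj ▸ hf j) hi
      rw [mem_PP]
      refine ⟨f, fun l => ?_, rfl⟩
      by_cases hl : l = i
      · subst hl; rw [Function.update_self, mem_singleton, ← hj, hji]
      · rw [Function.update_of_ne hl]; exact hf l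
    refine (R_mono hsub).trans ((R_PP_le _).trans ?_)
    set c : ι → ℝ := fun l => if l = i then 1 else R (V l) with hc
    have e : ∏ l, R (Function.update V i {q} l) = (1 / q) * ∏ l, c l := by
      rw [← mul_prod_erase univ _ (mem_univ i), ← mul_prod_erase univ c (mem_univ i)]
      have e1 : R (Function.update V i {q} i) = 1 / q := by simp [R]
      have e2 : c i = 1 := by simp [hc]
      rw [e1, e2, one_mul]
      congr 1
      refine prod_congr rfl fun l hl => ?_
      rw [mem_erase] at hl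
      rw [Function.update_of_ne hl.1]; simp [hc, hl.1]
    rw [e]
    apply mul_le_mul_of_nonneg_left _ (by positivity)
    apply prod_le_pow hμ
    · intro l
      simp only [hc]
      split_ifs
      · exact zero_le_one
      · exact R_nonneg _
    · have h1 : ∑ l, c l ≤ ∑ l, R (V l) + 1 := by
        rw [← add_sum_erase univ c (mem_univ i), ← add_sum_erase univ (fun l => R (V l)) (mem_univ i)]
        have e2 : c i = 1 := by simp [hc]
        have e3 : ∑ l ∈ univ.erase i, c l = ∑ l ∈ univ.erase i, R (V l) := by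
          refine sum_congr rfl fun l hl => ?_
          rw [mem_erase] at hl
          simp [hc, hl.1]
        rw [e2, e3]
        have := R_nonneg (V i)
        linarith
      linarith
  · have : (PP V).filter (fun n => q ∣ n) = ∅ := by
      rw [filter_eq_empty_iff]
      intro n hn hd
      rw [mem_PP] at hn
      obtain ⟨f, hf, rfl⟩ := hn
      obtain ⟨j, hj⟩ := eq_of_dvd_prod h hf hq hd
      exact hex ⟨j, hj ▸ hf j⟩
    rw [this]
    simp only [R, sum_empty]
    positivity

end Pool.Agent.H71.UF
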